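import Pool.Agent.H9.ST.Core

set_option autoImplicit false

namespace Pool.Agent.H9.ST

/-- The codes used by a list of coded triples. -/
def flat : List (ℕ × ℕ × ℕ) → List ℕ
  | [] => []
  | t :: l => t.1 :: t.2.1 :: t.2.2 :: flat l

/-- `x, y, z` are equal or form one of the blocks `bs` in some order. -/
def lin (bs : List (ℕ × ℕ × ℕ)) (x y z : ℕ) : Bool :=
  (x == y && y == z) || bs.any fun t =>
    (x == t.1 && y == t.2.1 && z == t.2.2) || (x == t.1 && z == t.2.1 && y == t.2.2) ||
    (y == t.1 && x == t.2.1 && z == t.2.2) || (y == t.1 && z == t.2.1 && x == t.2.2) ||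
    (z == t.1 && x == t.2.1 && y == t.2.2) || (z == t.1 && y == t.2.1 && x == t.2.2)

/-- The certificate check: `l` is a partial matching of the product of the two models, which misses
`k` points. -/
def ok (bs cs : List (ℕ × ℕ × ℕ)) (a c k : ℕ) (l : List (ℕ × ℕ × ℕ)) : Bool :=
  decide ((flat l).Nodup) &&
  l.all (fun t => lin bs (t.1 / 16) (t.2.1 / 16) (t.2.2 / 16) &&
    lin cs (t.1 % 16) (t.2.1 % 16) (t.2.2 % 16)) &&
  (flat l).all (fun n => decide (n / 16 < a) && decide (n % 16 < c)) &&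
  ((flat l).length + k == a * c)

variable {α β γ : Type*} [DecidableEq α] [DecidableEq β] [DecidableEq γ]

theorem lin_spec {S : Finset (Finset α)} {bs : List (ℕ × ℕ × ℕ)} {f : ℕ → α}
    (hf : ∀ t ∈ bs, ({f t.1, f t.2.1, f t.2.2} : Finset α) ∈ S) {x y z : ℕ}
    (h : lin bs x y z = true) :
    (x = y ∧ y = z) ∨ ({f x, f y, f z} : Finset α) ∈ S := by
  unfold lin at h
  simp only [Bool.or_eq_true, Bool.and_eq_true, beq_iff_eq, List.any_eq_true] at h
  rcases h with h | ⟨t, ht, h⟩
  · exact Or.inl h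
  · right
    have h0 := hf t ht
    rcases h with ((((h | h) | h) | h) | h) | h <;> obtain ⟨⟨h1, h2⟩, h3⟩ := h <;>
      rw [← h1, ← h2, ← h3] at h0 <;> convert h0 using 1 <;> ext w <;> simp <;> tauto

theorem pm_flat (B : Finset (Finset γ)) (F : ℕ → γ) (V : ℕ → Prop)
    (hF : ∀ m n, V m → V n → F m = F n → m = n) : ∀ l : List (ℕ × ℕ × ℕ), (flat l).Nodup →
    (∀ n ∈ flat l, V n) →
    (∀ t ∈ l, t.1 ≠ t.2.1 → t.1 ≠ t.2.2 → t.2.1 ≠ t.2.2 → V t.1 → V t.2.1 → V t.2.2 →
      ({F t.1, F t.2.1, F t.2.2} : Finset γ) ∈ B) → PM B ((flat l).toFinset.image F)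
  | [], _, _, _ => by simpa [flat] using PM.nil
  | t :: l, hn, hV, hB => by
    simp only [flat, List.nodup_cons, List.mem_cons, not_or] at hn
    obtain ⟨⟨h12, h13, h1⟩, ⟨h23, h2⟩, h3, hn⟩ := hn
    have v1 : V t.1 := hV _ (by simp [flat])
    have v2 : V t.2.1 := hV _ (by simp [flat])
    have v3 : V t.2.2 := hV _ (by simp [flat])
    have ih := pm_flat B F V hF l hn (fun n hm => hV n (by simp [flat, hm]))
      (fun s hs => hB s (List.mem_cons_of_mem _ hs))
    have e : (flat (t :: l)).toFinset.image F =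
        {F t.1, F t.2.1, F t.2.2} ∪ (flat l).toFinset.image F := by
      ext w
      simp only [flat, List.toFinset_cons, Finset.image_insert, Finset.mem_insert,
        Finset.mem_union, Finset.mem_singleton]
      tauto
    rw [e]
    refine PM.cons (hB t (List.mem_cons_self ..) h12 h13 h23 v1 v2 v3) ?_ ih
    rw [Finset.disjoint_left]
    intro w hw hw2
    simp only [Finset.mem_insert, Finset.mem_singleton] at hw
    simp only [Finset.mem_image, List.mem_toFinset] at hw2
    obtain ⟨n, hn1, hn2⟩ := hw2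
    have vn : V n := hV n (by simp [flat, hn1])
    rcases hw with rfl | rfl | rfl
    · exact h1 ((hF _ _ v1 vn hn2.symm) ▸ hn1)
    · exact h2 ((hF _ _ v2 vn hn2.symm) ▸ hn1)
    · exact h3 ((hF _ _ v3 vn hn2.symm) ▸ hn1)

variable [Fintype α] [Fintype β]

theorem cert_pm {S : Finset (Finset α)} {T : Finset (Finset β)} {bs cs : List (ℕ × ℕ × ℕ)}
    {f : ℕ → α} {g : ℕ → β} {a c k : ℕ}
    (hf : ∀ t ∈ bs, ({f t.1, f t.2.1, f t.2.2} : Finset α) ∈ S)
    (hg : ∀ t ∈ cs, ({g t.1, g t.2.1, g t.2.2} : Finset β) ∈ T)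
    (fi : ∀ i < a, ∀ j < a, f i = f j → i = j) (gi : ∀ i < c, ∀ j < c, g i = g j → i = j)
    (l : List (ℕ × ℕ × ℕ)) (h : ok bs cs a c k l = true) :
    ∃ W, PM (prod S T) W ∧ W ⊆ (Finset.range a).image f ×ˢ (Finset.range c).image g ∧
      W.card + k = a * c := by
  unfold ok at h
  simp only [Bool.and_eq_true, decide_eq_true_eq, List.all_eq_true, beq_iff_eq] at h
  obtain ⟨⟨⟨hnd, hl⟩, hv⟩, hlen⟩ := h
  set F : ℕ → α × β := fun n => (f (n / 16), g (n % 16)) with hFdef
  have hF : ∀ m n, (m / 16 < a ∧ m % 16 < c) → (n / 16 < a ∧ n % 16 < c) → F m = F n →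
      m = n := by
    intro m n hm hn e
    simp only [hFdef, Prod.mk.injEq] at e
    have h1 := fi _ hm.1 _ hn.1 e.1
    have h2 := gi _ hm.2 _ hn.2 e.2
    omega
  refine ⟨(flat l).toFinset.image F, ?_, ?_, ?_⟩
  · refine pm_flat _ F (fun n => n / 16 < a ∧ n % 16 < c) hF l hnd hv ?_
    intro t ht h12 h13 h23 v1 v2 v3
    obtain ⟨hl1, hl2⟩ := hl t ht
    have e1 := lin_spec hf hl1
    have e2 := lin_spec hg hl2
    have c3 : ({F t.1, F t.2.1, F t.2.2} : Finset (α × β)).card = 3 := by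
      rw [Finset.card_eq_three]
      exact ⟨_, _, _, fun e => h12 (hF _ _ v1 v2 e), fun e => h13 (hF _ _ v1 v3 e),
        fun e => h23 (hF _ _ v2 v3 e), rfl⟩
    simp only [prod, Finset.mem_filter, Finset.mem_univ, true_and]
    refine ⟨c3, ?_, ?_⟩
    · have e : ({F t.1, F t.2.1, F t.2.2} : Finset (α × β)).image Prod.fst =
          {f (t.1 / 16), f (t.2.1 / 16), f (t.2.2 / 16)} := by
        simp [Finset.image_insert, hFdef]
      rw [e]
      rcases e1 with ⟨h1, h2⟩ | h1
      · right; rw [h1, h2]; simp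
      · exact Or.inl h1
    · have e : ({F t.1, F t.2.1, F t.2.2} : Finset (α × β)).image Prod.snd =
          {g (t.1 % 16), g (t.2.1 % 16), g (t.2.2 % 16)} := by
        simp [Finset.image_insert, hFdef]
      rw [e]
      rcases e2 with ⟨h1, h2⟩ | h1
      · right; rw [h1, h2]; simp
      · exact Or.inl h1
  · intro w hw
    simp only [Finset.mem_image, List.mem_toFinset] at hw
    obtain ⟨n, hn, rfl⟩ := hw
    have := hv n hn
    simp only [hFdef, Finset.mem_product, Finset.mem_image, Finset.mem_range]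
    exact ⟨⟨_, this.1, rfl⟩, ⟨_, this.2, rfl⟩⟩
  · rw [Finset.card_image_of_injOn, List.toFinset_card_of_nodup hnd]
    · exact hlen
    · intro m hm n hn e
      simp only [List.coe_toFinset, Set.mem_setOf_eq] at hm hn
      exact hF m n (hv m hm) (hv n hn) e

/-- Three missed points, the three middle points in three different triples. -/
def mA : List (ℕ × ℕ × ℕ) := [(0,1,3),(0,2,6),(1,2,9),(3,4,5),(6,7,8),(9,10,11)]
/-- Two middle points in one triple. -/
def mB : List (ℕ × ℕ × ℕ) := [(0,1,3),(0,2,4),(1,2,6),(3,4,5),(6,7,8)]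
/-- The three middle points form a triple. -/
def mC : List (ℕ × ℕ × ℕ) := [(0,1,3),(0,2,4),(1,2,5),(3,4,5)]

def cAA : List (ℕ × ℕ × ℕ) :=
  [(6,7,8),(25,26,27),(54,55,56),(67,68,69),(70,71,72),(83,84,85),(86,87,88),(112,113,115),
   (121,122,123),(128,129,131),(137,138,139),(160,161,163),(166,167,168),(176,177,179),
   (182,183,184),(16,32,144),(48,64,80),(49,65,81),(50,66,82),(98,114,130),(146,162,178),
   (100,116,132),(148,164,180),(101,117,133),(149,165,181),(57,73,89),(153,169,185),(10,42,106),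
   (58,74,90),(154,170,186),(11,43,107),(59,75,91),(155,171,187),(0,17,51),(3,21,52),(4,19,53),
   (1,35,96),(2,33,105),(9,34,97),(5,36,99),(18,41,145),(20,37,147),(22,40,151),(23,38,152),
   (24,39,150),(102,120,135),(103,118,136),(104,119,134)]

def cAB : List (ℕ × ℕ × ℕ) :=
  [(6,7,8),(22,23,24),(38,39,40),(64,66,68),(80,81,83),(115,116,117),(131,132,133),(163,164,165),
   (179,180,181),(16,32,144),(96,112,128),(97,113,129),(98,114,130),(5,21,53),(102,118,134),
   (55,71,87),(103,119,135),(151,167,183),(56,72,88),(104,120,136),(152,168,184),(1,19,48),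
   (2,17,54),(0,34,100),(3,36,101),(4,37,99),(18,33,150),(20,35,149),(49,70,82),(50,65,86),
   (51,69,84),(52,67,85),(147,161,176),(148,160,178),(145,162,182),(146,166,177)]

def cAC : List (ℕ × ℕ × ℕ) :=
  [(64,66,68),(81,82,85),(112,114,116),(128,129,131),(160,161,163),(177,178,181),(0,20,50),
   (4,18,48),(2,21,49),(1,35,96),(3,37,100),(5,36,99),(16,33,147),(19,32,145),(17,34,149),
   (51,65,80),(52,69,83),(53,67,84),(97,117,130),(98,113,133),(101,115,132),(144,162,180),
   (146,164,176),(148,165,179)]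

def cBB : List (ℕ × ℕ × ℕ) :=
  [(6,7,8),(22,23,24),(38,39,40),(83,84,85),(115,116,117),(131,132,133),(96,112,128),(1,33,65),
   (97,113,129),(2,34,66),(98,114,130),(5,37,69),(0,18,52),(4,16,50),(3,20,53),(17,32,99),
   (19,36,101),(21,35,100),(49,67,80),(51,64,81),(48,68,82),(54,71,88),(55,72,86),(56,70,87),
   (102,119,136),(103,120,134),(104,118,135)]

def cBC : List (ℕ × ℕ × ℕ) :=
  [(17,18,21),(32,33,35),(80,81,83),(96,98,100),(112,114,116),(128,130,132),(97,113,129),
   (99,115,131),(101,117,133),(1,16,51),(2,20,48),(5,19,52),(0,34,68),(3,36,69),(4,37,67),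
   (50,64,84),(49,66,85),(53,65,82)]

def cCC : List (ℕ × ℕ × ℕ) :=
  [(17,33,81),(18,34,82),(53,69,85),(1,19,48),(2,16,52),(4,21,51),(3,32,65),(0,36,66),(5,35,68),
   (20,37,83),(49,67,80),(50,64,84)]

theorem okAA : ok mA mA 12 12 0 cAA = true := by decide +kernel
theorem okAB : ok mA mB 12 9 0 cAB = true := by decide +kernel
theorem okAC : ok mA mC 12 6 0 cAC = true := by decide +kernel
theorem okBB : ok mB mB 9 9 0 cBB = true := by decide +kernel
theorem okBC : ok mB mC 9 6 0 cBC = true := by decide +kernel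
theorem okCC : ok mC mC 6 6 0 cCC = true := by decide +kernel

end Pool.Agent.H9.ST
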