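import Pool.Agent.H9.ST.Cert

set_option autoImplicit false

namespace Pool.Agent.H9.ST

/-- Four missed points, middle points of a pairing in different triples. -/
def mP : List (ℕ × ℕ × ℕ) := [(0,1,4),(2,3,7),(4,5,6),(7,8,9)]
/-- Different middle points in one triple. -/
def mQ : List (ℕ × ℕ × ℕ) := [(0,1,4),(2,3,5),(4,5,6)]
/-- Equal middle points. -/
def mR : List (ℕ × ℕ × ℕ) := [(0,1,4),(2,3,4),(4,5,6)]
/-- Two pairings with equal middle points, in different triples. -/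
def mRR : List (ℕ × ℕ × ℕ) := [(0,1,4),(2,3,4),(0,2,7),(1,3,7),(4,5,6),(7,8,9)]
/-- The Fano plane. -/
def mF : List (ℕ × ℕ × ℕ) := [(0,1,4),(2,3,4),(0,2,5),(1,3,5),(0,3,6),(1,2,6),(4,5,6)]

def cBA : List (ℕ × ℕ × ℕ) :=
  [(9,10,11),(22,23,24),(25,26,27),(41,42,43),(54,55,56),(80,81,83),(86,87,88),(102,103,104),
   (112,113,115),(118,119,120),(128,129,131),(134,135,136),(1,17,49),(50,66,82),(98,114,130),
   (52,68,84),(100,116,132),(53,69,85),(101,117,133),(7,39,71),(8,40,72),(105,121,137),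
   (106,122,138),(107,123,139),(6,18,48),(5,20,51),(3,32,65),(0,34,70),(2,38,64),(4,37,67),
   (16,35,97),(19,33,96),(21,36,99),(57,74,91),(58,75,89),(59,73,90)]

def cCA : List (ℕ × ℕ × ℕ) :=
  [(6,7,8),(33,34,41),(54,55,56),(65,66,73),(70,71,72),(81,82,89),(16,32,80),(2,18,50),(20,36,84),
   (5,21,53),(22,38,86),(23,39,87),(24,40,88),(10,26,58),(11,27,59),(0,19,49),(3,17,48),(1,35,64),
   (4,37,67),(9,43,74),(25,42,91),(51,68,85),(52,69,83),(57,75,90)]

def cCB : List (ℕ × ℕ × ℕ) :=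
  [(0,2,4),(16,18,20),(33,34,38),(21,37,85),(7,39,71),(56,72,88),(1,19,48),(6,24,55),(8,23,54),
   (3,36,69),(5,35,68),(17,32,83),(22,40,87),(51,64,81),(52,66,80),(49,70,82),(50,65,86),
   (53,67,84)]

def cP_P : List (ℕ × ℕ × ℕ) :=
  [(4,5,6),(7,8,9),(20,21,22),(23,24,25),(34,35,39),(36,37,38),(50,51,55),(52,53,54),(80,81,84),
   (82,83,87),(96,97,100),(98,99,103),(128,129,132),(135,136,137),(144,145,148),(151,152,153),
   (0,16,64),(32,48,112),(1,17,65),(33,49,113),(2,18,66),(114,130,146),(3,19,67),(115,131,147),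
   (69,85,101),(117,133,149),(70,86,102),(118,134,150),(40,56,120),(72,88,104),(41,57,121),
   (73,89,105)]

def cP_Q : List (ℕ × ℕ × ℕ) :=
  [(0,1,4),(16,17,20),(32,33,36),(48,49,52),(82,83,85),(98,99,101),(130,131,133),(146,147,149),
   (6,22,70),(38,54,118),(2,19,69),(3,21,66),(5,18,67),(34,53,115),(35,50,117),(37,51,114),
   (64,81,100),(65,84,96),(68,80,97),(112,129,148),(113,132,144),(116,128,145)]

def cQ_P : List (ℕ × ℕ × ℕ) :=
  [(2,3,7),(18,19,23),(66,67,71),(100,101,102),(103,104,105),(0,16,64),(32,48,80),(1,17,65),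
   (33,49,81),(4,20,68),(36,52,84),(5,21,69),(37,53,85),(6,22,70),(38,54,86),(8,24,72),(40,56,88),
   (9,25,73),(41,57,89),(34,55,83),(35,50,87),(39,51,82)]

def cQ_Q : List (ℕ × ℕ × ℕ) :=
  [(96,97,100),(98,99,101),(2,18,66),(3,19,67),(5,21,69),(6,22,70),(38,54,86),(0,20,65),(1,16,68),
   (4,17,64),(32,49,84),(33,52,80),(36,48,81),(34,51,85),(37,50,83)]

def cP_R : List (ℕ × ℕ × ℕ) :=
  [(0,1,4),(16,17,20),(34,35,36),(50,51,52),(82,83,84),(98,99,100),(132,133,134),(148,149,150),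
   (32,48,112),(64,80,96),(33,49,113),(65,81,97),(2,18,66),(114,130,146),(3,19,67),(115,131,147),
   (5,21,69),(37,53,117),(6,22,70),(38,54,118),(68,86,101),(116,128,145)]

def cR_P : List (ℕ × ℕ × ℕ) :=
  [(2,3,7),(4,5,6),(18,19,23),(20,21,22),(32,33,36),(39,40,41),(48,49,52),(55,56,57),(80,81,84),
   (87,88,89),(96,97,100),(103,104,105),(0,16,64),(1,17,65),(66,82,98),(67,83,99),(37,53,69),
   (38,54,70),(8,24,72),(9,25,73),(35,50,71),(68,86,101)]

def cQ_R : List (ℕ × ℕ × ℕ) :=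
  [(96,97,100),(0,16,64),(1,17,65),(2,18,66),(34,50,82),(3,19,67),(35,51,83),(37,53,85),
   (38,54,86),(4,21,70),(5,22,68),(6,20,69),(32,52,81),(33,48,84),(36,49,80)]

def cR_Q : List (ℕ × ℕ × ℕ) :=
  [(0,1,4),(2,3,5),(16,17,20),(18,19,21),(34,35,37),(50,51,53),(80,81,84),(96,97,100),(66,82,98),
   (67,83,99),(69,85,101),(70,86,102),(32,49,68),(33,52,64),(36,48,65)]

def cRR_R : List (ℕ × ℕ × ℕ) :=
  [(2,3,4),(18,19,20),(36,37,38),(52,53,54),(84,85,86),(100,101,102),(128,129,132),(144,145,148),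
   (16,48,112),(64,80,96),(17,49,113),(65,81,97),(66,82,98),(114,130,146),(67,83,99),
   (115,131,147),(5,21,69),(117,133,149),(6,22,70),(118,134,150),(35,50,68),(1,32,116)]

def cR_RR : List (ℕ × ℕ × ℕ) :=
  [(0,2,7),(4,5,6),(16,18,23),(20,21,22),(32,33,36),(39,40,41),(48,49,52),(55,56,57),(84,85,86),
   (87,88,89),(100,101,102),(103,104,105),(64,80,96),(1,17,65),(34,50,66),(35,51,67),(37,53,69),
   (38,54,70),(8,24,72),(9,25,73),(68,82,99),(71,83,97)]

def cF_F : List (ℕ × ℕ × ℕ) :=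
  [(32,35,38),(17,49,81),(66,82,98),(19,51,83),(21,53,85),(0,20,65),(3,18,68),(34,48,69),
   (37,50,64),(2,33,86),(1,52,96),(5,54,100),(16,36,97),(67,80,102),(70,84,101)]

theorem okBA : ok mB mA 9 12 0 cBA = true := by decide +kernel
theorem okCA : ok mC mA 6 12 0 cCA = true := by decide +kernel
theorem okCB : ok mC mB 6 9 0 cCB = true := by decide +kernel
theorem okP_P : ok mP mP 10 10 4 cP_P = true := by decide +kernel
theorem okP_Q : ok mP mQ 10 7 4 cP_Q = true := by decide +kernel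
theorem okQ_P : ok mQ mP 7 10 4 cQ_P = true := by decide +kernel
theorem okQ_Q : ok mQ mQ 7 7 4 cQ_Q = true := by decide +kernel
theorem okP_R : ok mP mR 10 7 4 cP_R = true := by decide +kernel
theorem okR_P : ok mR mP 7 10 4 cR_P = true := by decide +kernel
theorem okQ_R : ok mQ mR 7 7 4 cQ_R = true := by decide +kernel
theorem okR_Q : ok mR mQ 7 7 4 cR_Q = true := by decide +kernel
theorem okRR_R : ok mRR mR 10 7 4 cRR_R = true := by decide +kernel
theorem okR_RR : ok mR mRR 7 10 4 cR_RR = true := by decide +kernel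
theorem okF_F : ok mF mF 7 7 4 cF_F = true := by decide +kernel

end Pool.Agent.H9.ST
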