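import Mathlib

set_option autoImplicit false

namespace Pool.Agent.H9.ST

variable {α β : Type*} [DecidableEq α] [DecidableEq β]

/-- Steiner triple system on a finite type. -/
def IsSTS (T : Finset (Finset α)) : Prop :=
  (∀ t ∈ T, t.card = 3) ∧ ∀ x y : α, x ≠ y → ∃! t, t ∈ T ∧ x ∈ t ∧ y ∈ t

/-- A set of pairwise disjoint triples of `T`. -/
def IsMatching (T M : Finset (Finset α)) : Prop :=
  M ⊆ T ∧ ∀ s ∈ M, ∀ t ∈ M, s ≠ t → Disjoint s t

/-- The direct product of two triple systems: the 3-sets whose two projections are a triple or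
one point. -/
def prod [Fintype α] [Fintype β] (S : Finset (Finset α)) (T : Finset (Finset β)) :
    Finset (Finset (α × β)) :=
  Finset.univ.filter fun t => t.card = 3 ∧
    (t.image Prod.fst ∈ S ∨ (t.image Prod.fst).card = 1) ∧
    (t.image Prod.snd ∈ T ∨ (t.image Prod.snd).card = 1)

/-- `X` is a disjoint union of members of `S`. -/
inductive PM (S : Finset (Finset α)) : Finset α → Prop
  | nil : PM S ∅
  | cons {b X : Finset α} : b ∈ S → Disjoint b X → PM S X → PM S (b ∪ X)

theorem PM.union {S : Finset (Finset α)} {X Y : Finset α} (hX : PM S X) (hY : PM S Y)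
    (h : Disjoint X Y) : PM S (X ∪ Y) := by
  induction hX with
  | nil => simpa using hY
  | @cons b X hb hd _ ih =>
    rw [Finset.disjoint_union_left] at h
    rw [Finset.union_assoc]
    refine PM.cons hb ?_ (ih h.2)
    rw [Finset.disjoint_union_right]
    exact ⟨hd, h.1⟩

theorem PM.exists {S : Finset (Finset α)} (hS : ∀ t ∈ S, t.card = 3) {X : Finset α}
    (h : PM S X) : ∃ M, IsMatching S M ∧ (∀ t ∈ M, t ⊆ X) ∧ 3 * M.card = X.card := by
  induction h with
  | nil => exact ⟨∅, ⟨by simp, by simp⟩, by simp, by simp⟩
  | @cons b X hb hd _ ih =>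
    obtain ⟨M, ⟨hMS, hMd⟩, hMX, hc⟩ := ih
    have hbne : b.Nonempty := by
      rw [← Finset.card_pos, hS b hb]; norm_num
    have hbM : b ∉ M := by
      intro hbM
      have := hMX b hbM
      have h2 := Finset.disjoint_self_iff_empty b |>.mp (hd.mono_right this)
      exact hbne.ne_empty h2
    refine ⟨insert b M, ⟨?_, ?_⟩, ?_, ?_⟩
    · intro t ht
      rcases Finset.mem_insert.mp ht with rfl | ht
      · exact hb
      · exact hMS ht
    · intro s hs t ht hst
      rcases Finset.mem_insert.mp hs with h1 | h1
      · rcases Finset.mem_insert.mp ht with h2 | h2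
        · exact absurd (h1.trans h2.symm) hst
        · rw [h1]; exact hd.mono_right (hMX t h2)
      · rcases Finset.mem_insert.mp ht with h2 | h2
        · rw [h2]; exact (hd.mono_right (hMX s h1)).symm
        · exact hMd s h1 t h2 hst
    · intro t ht
      rcases Finset.mem_insert.mp ht with rfl | ht
      · exact Finset.subset_union_left
      · exact (hMX t ht).trans Finset.subset_union_right
    · rw [Finset.card_insert_of_notMem hbM, Finset.card_union_of_disjoint hd, hS b hb, ← hc]
      ring

theorem pm_of_matching {S M : Finset (Finset α)} (h : IsMatching S M) :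
    PM S (M.biUnion id) := by
  induction M using Finset.induction_on with
  | empty => exact PM.nil
  | @insert b M hb ih =>
    rw [Finset.biUnion_insert]
    refine PM.cons (h.1 (Finset.mem_insert_self _ _)) ?_ (ih ⟨?_, ?_⟩)
    · rw [Finset.disjoint_biUnion_right]
      intro t ht
      exact h.2 _ (Finset.mem_insert_self _ _) _ (Finset.mem_insert_of_mem ht)
        (fun e => hb (e ▸ ht))
    · exact fun t ht => h.1 (Finset.mem_insert_of_mem ht)
    · exact fun s hs t ht => h.2 s (Finset.mem_insert_of_mem hs) t (Finset.mem_insert_of_mem ht)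

variable [Fintype α] [Fintype β]

theorem mem_prod_left {S : Finset (Finset α)} {T : Finset (Finset β)} (hS : ∀ t ∈ S, t.card = 3)
    {b : Finset α} (hb : b ∈ S) (y : β) : b ×ˢ {y} ∈ prod S T := by
  have hne : b.Nonempty := by rw [← Finset.card_pos, hS b hb]; norm_num
  simp only [prod, Finset.mem_filter, Finset.mem_univ, true_and]
  refine ⟨by simp [hS b hb], Or.inl ?_, Or.inr ?_⟩
  · have : (b ×ˢ ({y} : Finset β)).image Prod.fst = b := by
      ext x; simp
    rw [this]; exact hb
  · have : (b ×ˢ ({y} : Finset β)).image Prod.snd = {y} := by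
      ext x
      obtain ⟨z, hz⟩ := hne
      simp only [Finset.mem_image, Finset.mem_product, Finset.mem_singleton, Prod.exists,
        exists_eq_right]
      constructor
      · rintro ⟨_, _, h⟩; exact h
      · intro h; exact ⟨z, hz, h⟩
    rw [this]; simp

theorem mem_prod_right {S : Finset (Finset α)} {T : Finset (Finset β)}
    (hT : ∀ t ∈ T, t.card = 3)
    {b : Finset β} (hb : b ∈ T) (x : α) : ({x} : Finset α) ×ˢ b ∈ prod S T := by
  have hne : b.Nonempty := by rw [← Finset.card_pos, hT b hb]; norm_num
  simp only [prod, Finset.mem_filter, Finset.mem_univ, true_and]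
  refine ⟨by simp [hT b hb], Or.inr ?_, Or.inl ?_⟩
  · have : (({x} : Finset α) ×ˢ b).image Prod.fst = {x} := by
      ext y
      obtain ⟨z, hz⟩ := hne
      simp only [Finset.mem_image, Finset.mem_product, Finset.mem_singleton, Prod.exists,
        exists_and_right, exists_eq_right]
      constructor
      · rintro ⟨_, h, _⟩; exact h
      · intro h; exact ⟨z, h, hz⟩
    rw [this]; simp
  · have : (({x} : Finset α) ×ˢ b).image Prod.snd = b := by
      ext y; simp
    rw [this]; exact hb

theorem pm_left_one {S : Finset (Finset α)} {T : Finset (Finset β)} (hS : ∀ t ∈ S, t.card = 3)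
    {X : Finset α} (h : PM S X) (y : β) : PM (prod S T) (X ×ˢ {y}) := by
  induction h with
  | nil => simpa using PM.nil
  | @cons b X hb hd _ ih =>
    rw [Finset.union_product]
    refine PM.cons (mem_prod_left hS hb y) ?_ ih
    rw [Finset.disjoint_product]; exact Or.inl hd

theorem pm_right_one {S : Finset (Finset α)} {T : Finset (Finset β)} (hT : ∀ t ∈ T, t.card = 3)
    {Y : Finset β} (h : PM T Y) (x : α) : PM (prod S T) ({x} ×ˢ Y) := by
  induction h with
  | nil => simpa using PM.nil
  | @cons b X hb hd _ ih =>
    rw [Finset.product_union]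
    refine PM.cons (mem_prod_right hT hb x) ?_ ih
    rw [Finset.disjoint_product]; exact Or.inr hd

theorem pm_left {S : Finset (Finset α)} {T : Finset (Finset β)} (hS : ∀ t ∈ S, t.card = 3)
    {X : Finset α} (h : PM S X) (Y : Finset β) : PM (prod S T) (X ×ˢ Y) := by
  induction Y using Finset.induction_on with
  | empty => simpa using PM.nil
  | @insert y Y hy ih =>
    have : X ×ˢ insert y Y = X ×ˢ {y} ∪ X ×ˢ Y := by
      rw [← Finset.product_union]; rfl
    rw [this]
    refine (pm_left_one hS h y).union ih ?_
    rw [Finset.disjoint_product]; exact Or.inr (by simpa using hy)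

theorem pm_right {S : Finset (Finset α)} {T : Finset (Finset β)} (hT : ∀ t ∈ T, t.card = 3)
    {Y : Finset β} (h : PM T Y) (X : Finset α) : PM (prod S T) (X ×ˢ Y) := by
  induction X using Finset.induction_on with
  | empty => simpa using PM.nil
  | @insert y Z hy ih =>
    have : insert y Z ×ˢ Y = {y} ×ˢ Y ∪ Z ×ˢ Y := by
      rw [← Finset.union_product]; rfl
    rw [this]
    refine (pm_right_one hT h y).union ih ?_
    rw [Finset.disjoint_product]; exact Or.inl (by simpa using hy)

end Pool.Agent.H9.ST
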