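import Pool.Agent.H9.ST.Four

set_option autoImplicit false

namespace Pool.Agent.H9.ST

variable {α β : Type*} [DecidableEq α] [DecidableEq β] [Fintype α] [Fintype β]

theorem mod_three {S : Finset (Finset α)} (hS : IsSTS S) : Fintype.card α % 3 ≠ 2 := by
  have h : (Finset.univ : Finset α).offDiag = S.biUnion Finset.offDiag := by
    ext ⟨x, y⟩
    simp only [Finset.mem_offDiag, Finset.mem_univ, true_and, Finset.mem_biUnion]
    constructor
    · intro hxy
      obtain ⟨t, ⟨h1, h2, h3⟩, -⟩ := hS.2 x y hxy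
      exact ⟨t, h1, h2, h3, hxy⟩
    · rintro ⟨t, -, -, -, h⟩; exact h
  have hc := congrArg Finset.card h
  rw [Finset.card_biUnion, Finset.offDiag_card, Finset.card_univ,
    Finset.sum_const_nat (m := 6)] at hc
  · generalize Fintype.card α = n at hc ⊢
    intro h2
    obtain ⟨k, rfl⟩ : ∃ k, n = 3 * k + 2 := ⟨n / 3, by omega⟩
    have h3 : (3 * k + 2) * (3 * k + 2) - (3 * k + 2) = 3 * (3 * k * k + 3 * k) + 2 := by
      have : (3 * k + 2) * (3 * k + 2) = (3 * (3 * k * k + 3 * k) + 2) + (3 * k + 2) := by ring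
      rw [this]; exact Nat.add_sub_cancel _ _
    omega
  · intro t ht
    rw [Finset.offDiag_card, hS.1 t ht]
  · intro s hs t ht hst
    rw [Function.onFun, Finset.disjoint_left]
    rintro ⟨x, y⟩ h1 h2
    rw [Finset.mem_offDiag] at h1 h2
    exact hst (uniq hS h1.2.2 hs ht h1.1 h1.2.1 h2.1 h2.2.1)

theorem exists_max {S M0 : Finset (Finset α)} (hS : IsSTS S) (h0 : IsMatching S M0) :
    ∃ M, IsMatching S M ∧ M0.card ≤ M.card ∧ ∀ t ∈ S, ¬ Disjoint t (M.biUnion id) := by
  classical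
  obtain ⟨M, hM, hmax⟩ := Finset.exists_max_image (S.powerset.filter (fun M => IsMatching S M))
    Finset.card ⟨M0, by simp only [Finset.mem_filter, Finset.mem_powerset]; exact ⟨h0.1, h0⟩⟩
  simp only [Finset.mem_filter, Finset.mem_powerset] at hM hmax
  refine ⟨M, hM.2, hmax M0 ⟨h0.1, h0⟩, ?_⟩
  intro t ht hd
  have htM : t ∉ M := by
    intro h
    have hne : t.Nonempty := by rw [← Finset.card_pos, hS.1 t ht]; norm_num
    have h2 : t ⊆ M.biUnion id := Finset.subset_biUnion_of_mem id h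
    exact hne.ne_empty ((Finset.disjoint_self_iff_empty t).mp (hd.mono_right h2))
  have hd' : ∀ s ∈ M, Disjoint t s := fun s hs =>
    hd.mono_right (Finset.subset_biUnion_of_mem id hs)
  have h1 : IsMatching S (insert t M) := by
    refine ⟨Finset.insert_subset ht hM.1, ?_⟩
    intro s hs u hu hsu
    rcases Finset.mem_insert.mp hs with e1 | e1
    · rcases Finset.mem_insert.mp hu with e2 | e2
      · exact absurd (e1.trans e2.symm) hsu
      · rw [e1]; exact hd' u e2
    · rcases Finset.mem_insert.mp hu with e2 | e2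
      · rw [e2]; exact (hd' s e1).symm
      · exact hM.2.2 s e1 u e2 hsu
  have h2 := hmax (insert t M) ⟨h1.1, h1⟩
  rw [Finset.card_insert_of_notMem htM] at h2
  omega

/-- What is needed of one factor. -/
theorem cases {S M0 : Finset (Finset α)} (hS : IsSTS S) (h0 : IsMatching S M0)
    (hc : Fintype.card α ≤ 3 * M0.card + 4) :
    (PM S Finset.univ) ∨
    (Fintype.card α % 3 = 1 ∧ ∃ x, PM S (Finset.univ \ {x})) ∨
    (Fintype.card α % 3 = 0 ∧ (∃ L : Finset α, L.card = 3 ∧ PM S (Finset.univ \ L)) ∧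
      (Sub S Finset.univ 12 mA ∨ Sub S Finset.univ 9 mB ∨ Sub S Finset.univ 6 mC)) ∨
    (Fintype.card α % 3 = 1 ∧ (∃ L : Finset α, L.card = 4 ∧ PM S (Finset.univ \ L)) ∧
      (∃ x3 : α, Sub S (Finset.univ \ {x3}) 12 mA ∨ Sub S (Finset.univ \ {x3}) 9 mB ∨
        Sub S (Finset.univ \ {x3}) 6 mC) ∧
      ((Sub S Finset.univ 10 mP ∨ Sub S Finset.univ 7 mQ) ∨
      (Sub S Finset.univ 7 mR ∧ (Sub S Finset.univ 10 mRR ∨ Sub S Finset.univ 7 mF)))) := by
  obtain ⟨M, hM, hle, hmax⟩ := exists_max hS h0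
  have hcU := card_union_matching hS hM (Finset.Subset.refl M)
  have hpm := pm_of_matching hM
  set U := M.biUnion id with hU
  have hL : (Finset.univ \ U).card + 3 * M.card = Fintype.card α := by
    rw [← hcU, ← Finset.card_univ]
    exact Finset.card_sdiff_add_card_eq_card (Finset.subset_univ U)
  have h2 := mod_three hS
  have h5 : (Finset.univ \ U).card ≤ 4 := by omega
  have hUe : U = Finset.univ \ (Finset.univ \ U) := by
    rw [Finset.sdiff_sdiff_eq_self (Finset.subset_univ U)]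
  generalize hLd : Finset.univ \ U = L at hL h5 hUe
  have hnot : ∀ x ∈ L, x ∉ U := by
    intro x hx
    rw [← hLd] at hx
    exact (Finset.mem_sdiff.mp hx).2
  have hun : U ∪ L = Finset.univ := by
    rw [← hLd]; exact Finset.union_sdiff_of_subset (Finset.subset_univ U)
  obtain h | h | h | h | h : L.card = 0 ∨ L.card = 1 ∨ L.card = 2 ∨ L.card = 3 ∨ L.card = 4 := by
    omega
  · left
    rw [Finset.card_eq_zero.mp h, Finset.union_empty] at hun
    rw [← hun]; exact hpm
  · right; left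
    obtain ⟨x, hx⟩ := Finset.card_eq_one.mp h
    refine ⟨by omega, x, ?_⟩
    rw [← hx, ← hUe]; exact hpm
  · omega
  · right; right; left
    refine ⟨by omega, ⟨L, h, by rw [← hUe]; exact hpm⟩, ?_⟩
    obtain ⟨x0, x1, x2, h1, h2, h3, e⟩ := Finset.card_eq_three.mp h
    have := three (x0 := x0) (x1 := x1) (x2 := x2) hS hM hmax h1 h2 h3
      (hnot _ (by rw [e]; simp)) (hnot _ (by rw [e]; simp)) (hnot _ (by rw [e]; simp))
    rw [← e, ← hU, hun] at this
    exact this
  · right; right; right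
    refine ⟨by omega, ⟨L, h, by rw [← hUe]; exact hpm⟩, ?_⟩
    obtain ⟨x3, hx3⟩ : L.Nonempty := by rw [← Finset.card_pos]; omega
    have h' : (L.erase x3).card = 3 := by rw [Finset.card_erase_of_mem hx3, h]
    obtain ⟨x0, x1, x2, h1, h2, h3, e⟩ := Finset.card_eq_three.mp h'
    have m0 : x0 ∈ L.erase x3 := by rw [e]; simp
    have m1 : x1 ∈ L.erase x3 := by rw [e]; simp
    have m2 : x2 ∈ L.erase x3 := by rw [e]; simp
    rw [Finset.mem_erase] at m0 m1 m2
    have eL : L = {x0, x1, x2, x3} := by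
      rw [← Finset.insert_erase hx3, e]; ext w; simp; tauto
    constructor
    · refine ⟨x3, ?_⟩
      have := three (x0 := x0) (x1 := x1) (x2 := x2) hS hM hmax h1 h2 h3
        (hnot _ m0.2) (hnot _ m1.2) (hnot _ m2.2)
      have e2 : U ∪ {x0, x1, x2} = Finset.univ \ {x3} := by
        rw [← e, ← hun]
        ext w
        simp only [Finset.mem_union, Finset.mem_erase, Finset.mem_sdiff, Finset.mem_singleton]
        constructor
        · rintro (hw | hw)
          · exact ⟨Or.inl hw, fun e => hnot _ hx3 (e ▸ hw)⟩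
          · exact ⟨Or.inr hw.2, hw.1⟩
        · rintro ⟨hw | hw, hne⟩
          · exact Or.inl hw
          · exact Or.inr ⟨hne, hw⟩
      rw [← hU, e2] at this
      exact this
    · have := four (x0 := x0) (x1 := x1) (x2 := x2) (x3 := x3) hS hM hmax (by rw [← eL]; exact h)
        h1 h2 m0.1 h3 m1.1 m2.1 (hnot _ m0.2) (hnot _ m1.2) (hnot _ m2.2) (hnot _ hx3)
      rw [← eL, ← hU, hun] at this
      exact this

theorem three_three {S : Finset (Finset α)} {T : Finset (Finset β)}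
    (hS : ∀ t ∈ S, t.card = 3) (hT : ∀ t ∈ T, t.card = 3) {R : Finset α} {Q : Finset β}
    (h1 : Sub S R 12 mA ∨ Sub S R 9 mB ∨ Sub S R 6 mC)
    (h2 : Sub T Q 12 mA ∨ Sub T Q 9 mB ∨ Sub T Q 6 mC) : PM (prod S T) (R ×ˢ Q) := by
  have key : ∃ X, X ⊆ R ×ˢ Q ∧ PM (prod S T) X ∧ X.card + 0 = R.card * Q.card := by
    rcases h1 with h1 | h1 | h1 <;> rcases h2 with h2 | h2 | h2
    · exact sub_prod hS hT h1 h2 _ okAA
    · exact sub_prod hS hT h1 h2 _ okAB
    · exact sub_prod hS hT h1 h2 _ okAC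
    · exact sub_prod hS hT h1 h2 _ okBA
    · exact sub_prod hS hT h1 h2 _ okBB
    · exact sub_prod hS hT h1 h2 _ okBC
    · exact sub_prod hS hT h1 h2 _ okCA
    · exact sub_prod hS hT h1 h2 _ okCB
    · exact sub_prod hS hT h1 h2 _ okCC
  obtain ⟨X, hX, hp, hc⟩ := key
  rw [Finset.eq_of_subset_of_card_le hX (by rw [Finset.card_product]; omega)] at hp
  exact hp

theorem four_four {S : Finset (Finset α)} {T : Finset (Finset β)}
    (hS : ∀ t ∈ S, t.card = 3) (hT : ∀ t ∈ T, t.card = 3) {R : Finset α} {Q : Finset β}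
    (h1 : (Sub S R 10 mP ∨ Sub S R 7 mQ) ∨ (Sub S R 7 mR ∧ (Sub S R 10 mRR ∨ Sub S R 7 mF)))
    (h2 : (Sub T Q 10 mP ∨ Sub T Q 7 mQ) ∨ (Sub T Q 7 mR ∧ (Sub T Q 10 mRR ∨ Sub T Q 7 mF))) :
    ∃ X, X ⊆ R ×ˢ Q ∧ PM (prod S T) X ∧ X.card + 4 = R.card * Q.card := by
  rcases h1 with (h1 | h1) | ⟨r1, h1⟩ <;> rcases h2 with (h2 | h2) | ⟨r2, h2⟩
  · exact sub_prod hS hT h1 h2 _ okP_P
  · exact sub_prod hS hT h1 h2 _ okP_Q
  · exact sub_prod hS hT h1 r2 _ okP_R
  · exact sub_prod hS hT h1 h2 _ okQ_P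
  · exact sub_prod hS hT h1 h2 _ okQ_Q
  · exact sub_prod hS hT h1 r2 _ okQ_R
  · exact sub_prod hS hT r1 h2 _ okR_P
  · exact sub_prod hS hT r1 h2 _ okR_Q
  · rcases h1 with h1 | h1
    · exact sub_prod hS hT h1 r2 _ okRR_R
    · rcases h2 with h2 | h2
      · exact sub_prod hS hT r1 h2 _ okR_RR
      · exact sub_prod hS hT h1 h2 _ okF_F

end Pool.Agent.H9.ST
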