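import Pool.Agent.H9.ST.Three
import Pool.Agent.H9.ST.Cert2

set_option autoImplicit false

namespace Pool.Agent.H9.ST

variable {α : Type*} [DecidableEq α]
variable {S M : Finset (Finset α)} {x0 x1 x2 x3 z z' z1 z2 z3 : α}

theorem card_union_matching (hS : IsSTS S) (hM : IsMatching S M) {M' : Finset (Finset α)}
    (h : M' ⊆ M) : (M'.biUnion id).card = 3 * M'.card := by
  have e := Finset.card_biUnion (s := M') (t := id)
    (fun s hs t ht hst => hM.2 s (h hs) t (h ht) hst)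
  have e2 : ∑ u ∈ M', (id u : Finset α).card = M'.card * 3 :=
    Finset.sum_const_nat (fun t ht => hS.1 t (hM.1 (h ht)))
  rw [e, e2, mul_comm]

theorem mkSub (hS : IsSTS S) (hM : IsMatching S M) {X : Finset α}
    (hX : Disjoint X (M.biUnion id)) {M' : Finset (Finset α)} (hM' : M' ⊆ M) {l : List α} {d : α}
    {a : ℕ} {bs : List (ℕ × ℕ × ℕ)} (key : l.toFinset = X ∪ M'.biUnion id) (hl : l.length = a)
    (hc : X.card + 3 * M'.card = a)
    (hb : ∀ t ∈ bs, ({l.getD t.1 d, l.getD t.2.1 d, l.getD t.2.2 d} : Finset α) ∈ S) :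
    Sub S (M.biUnion id ∪ X) a bs := by
  have hsub : M'.biUnion id ⊆ M.biUnion id :=
    Finset.biUnion_subset_biUnion_of_subset_left _ hM'
  refine ⟨l, d, nodup_of_card ?_, hl, hb, ?_, ?_⟩
  · rw [key, Finset.card_union_of_disjoint (hX.mono_right hsub),
      card_union_matching hS hM hM', hl, hc]
  · rw [key]
    exact Finset.union_subset Finset.subset_union_right (hsub.trans Finset.subset_union_left)
  · rw [key]; exact pm_rest hM hM' hX

theorem typeP (hS : IsSTS S) (hM : IsMatching S M) (hx : ({x0, x1, x2, x3} : Finset α).card = 4)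
    (hX : Disjoint ({x0, x1, x2, x3} : Finset α) (M.biUnion id))
    (h01 : ({x0, x1, z} : Finset α) ∈ S) (h23 : ({x2, x3, z'} : Finset α) ∈ S)
    {b c : Finset α} (hb : b ∈ M) (hc : c ∈ M) (zb : z ∈ b) (zc : z' ∈ c) (hbc : b ≠ c) :
    Sub S (M.biUnion id ∪ {x0, x1, x2, x3}) 10 mP := by
  obtain ⟨u, v, eb⟩ := block_of_mem (hS.1 b (hM.1 hb)) zb
  obtain ⟨u', v', ec⟩ := block_of_mem (hS.1 c (hM.1 hc)) zc
  have hM' : ({b, c} : Finset (Finset α)) ⊆ M := by
    intro t ht
    simp only [Finset.mem_insert, Finset.mem_singleton] at ht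
    rcases ht with rfl | rfl <;> assumption
  refine mkSub (l := [x0, x1, x2, x3, z, u, v, z', u', v']) (d := x0) hS hM hX hM' ?_ rfl ?_ ?_
  · rw [eb, ec]; ext w; simp; tauto
  · rw [hx, Finset.card_pair hbc]
  · have hb' := hM.1 hb
    have hc' := hM.1 hc
    rw [eb] at hb'; rw [ec] at hc'
    intro t ht
    simp only [mP, List.mem_cons, List.not_mem_nil, or_false] at ht
    rcases ht with rfl | rfl | rfl | rfl <;> assumption

theorem typeQ (hS : IsSTS S) (hM : IsMatching S M) (hx : ({x0, x1, x2, x3} : Finset α).card = 4)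
    (hX : Disjoint ({x0, x1, x2, x3} : Finset α) (M.biUnion id))
    (h01 : ({x0, x1, z} : Finset α) ∈ S) (h23 : ({x2, x3, z'} : Finset α) ∈ S)
    {b : Finset α} (hb : b ∈ M) (zb : z ∈ b) (zc : z' ∈ b) (hz : z ≠ z') :
    Sub S (M.biUnion id ∪ {x0, x1, x2, x3}) 7 mQ := by
  obtain ⟨v, eb⟩ := block_of_mem2 (hS.1 b (hM.1 hb)) zb zc hz
  have hM' : ({b} : Finset (Finset α)) ⊆ M := by
    intro t ht
    simp only [Finset.mem_singleton] at ht
    rw [ht]; exact hb
  refine mkSub (l := [x0, x1, x2, x3, z, z', v]) (d := x0) hS hM hX hM' ?_ rfl ?_ ?_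
  · rw [eb]; ext w; simp; tauto
  · rw [hx, Finset.card_singleton]
  · have hb' := hM.1 hb
    rw [eb] at hb'
    intro t ht
    simp only [mQ, List.mem_cons, List.not_mem_nil, or_false] at ht
    rcases ht with rfl | rfl | rfl <;> assumption

theorem typeR (hS : IsSTS S) (hM : IsMatching S M) (hx : ({x0, x1, x2, x3} : Finset α).card = 4)
    (hX : Disjoint ({x0, x1, x2, x3} : Finset α) (M.biUnion id))
    (h01 : ({x0, x1, z} : Finset α) ∈ S) (h23 : ({x2, x3, z} : Finset α) ∈ S)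
    {b : Finset α} (hb : b ∈ M) (zb : z ∈ b) :
    Sub S (M.biUnion id ∪ {x0, x1, x2, x3}) 7 mR := by
  obtain ⟨u, v, eb⟩ := block_of_mem (hS.1 b (hM.1 hb)) zb
  have hM' : ({b} : Finset (Finset α)) ⊆ M := by
    intro t ht
    simp only [Finset.mem_singleton] at ht
    rw [ht]; exact hb
  refine mkSub (l := [x0, x1, x2, x3, z, u, v]) (d := x0) hS hM hX hM' ?_ rfl ?_ ?_
  · rw [eb]; ext w; simp; tauto
  · rw [hx, Finset.card_singleton]
  · have hb' := hM.1 hb
    rw [eb] at hb'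
    intro t ht
    simp only [mR, List.mem_cons, List.not_mem_nil, or_false] at ht
    rcases ht with rfl | rfl | rfl <;> assumption

theorem typeRR (hS : IsSTS S) (hM : IsMatching S M) (hx : ({x0, x1, x2, x3} : Finset α).card = 4)
    (hX : Disjoint ({x0, x1, x2, x3} : Finset α) (M.biUnion id))
    (h01 : ({x0, x1, z1} : Finset α) ∈ S) (h23 : ({x2, x3, z1} : Finset α) ∈ S)
    (h02 : ({x0, x2, z2} : Finset α) ∈ S) (h13 : ({x1, x3, z2} : Finset α) ∈ S)
    {b c : Finset α} (hb : b ∈ M) (hc : c ∈ M) (zb : z1 ∈ b) (zc : z2 ∈ c) (hbc : b ≠ c) :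
    Sub S (M.biUnion id ∪ {x0, x1, x2, x3}) 10 mRR := by
  obtain ⟨u, v, eb⟩ := block_of_mem (hS.1 b (hM.1 hb)) zb
  obtain ⟨u', v', ec⟩ := block_of_mem (hS.1 c (hM.1 hc)) zc
  have hM' : ({b, c} : Finset (Finset α)) ⊆ M := by
    intro t ht
    simp only [Finset.mem_insert, Finset.mem_singleton] at ht
    rcases ht with rfl | rfl <;> assumption
  refine mkSub (l := [x0, x1, x2, x3, z1, u, v, z2, u', v']) (d := x0) hS hM hX hM' ?_ rfl ?_ ?_
  · rw [eb, ec]; ext w; simp; tauto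
  · rw [hx, Finset.card_pair hbc]
  · have hb' := hM.1 hb
    have hc' := hM.1 hc
    rw [eb] at hb'; rw [ec] at hc'
    intro t ht
    simp only [mRR, List.mem_cons, List.not_mem_nil, or_false] at ht
    rcases ht with rfl | rfl | rfl | rfl | rfl | rfl <;> assumption

theorem typeF (hS : IsSTS S) (hM : IsMatching S M) (hx : ({x0, x1, x2, x3} : Finset α).card = 4)
    (hX : Disjoint ({x0, x1, x2, x3} : Finset α) (M.biUnion id))
    (h01 : ({x0, x1, z1} : Finset α) ∈ S) (h23 : ({x2, x3, z1} : Finset α) ∈ S)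
    (h02 : ({x0, x2, z2} : Finset α) ∈ S) (h13 : ({x1, x3, z2} : Finset α) ∈ S)
    (h03 : ({x0, x3, z3} : Finset α) ∈ S) (h12 : ({x1, x2, z3} : Finset α) ∈ S)
    {b : Finset α} (hb : b ∈ M) (zb : z1 ∈ b) (zc : z2 ∈ b) (zd : z3 ∈ b) (n1 : z1 ≠ z2)
    (n2 : z1 ≠ z3) (n3 : z2 ≠ z3) :
    Sub S (M.biUnion id ∪ {x0, x1, x2, x3}) 7 mF := by
  have eb : b = {z1, z2, z3} := by
    symm
    apply Finset.eq_of_subset_of_card_le
    · intro w hw
      simp only [Finset.mem_insert, Finset.mem_singleton] at hw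
      rcases hw with rfl | rfl | rfl <;> assumption
    · rw [hS.1 b (hM.1 hb), Finset.card_eq_three.mpr ⟨_, _, _, n1, n2, n3, rfl⟩]
  have hM' : ({b} : Finset (Finset α)) ⊆ M := by
    intro t ht
    simp only [Finset.mem_singleton] at ht
    rw [ht]; exact hb
  refine mkSub (l := [x0, x1, x2, x3, z1, z2, z3]) (d := x0) hS hM hX hM' ?_ rfl ?_ ?_
  · rw [eb]; ext w; simp; tauto
  · rw [hx, Finset.card_singleton]
  · have hb' := hM.1 hb
    rw [eb] at hb'
    intro t ht
    simp only [mF, List.mem_cons, List.not_mem_nil, or_false] at ht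
    rcases ht with rfl | rfl | rfl | rfl | rfl | rfl | rfl <;> assumption

/-- Two middle points over one common end are different. -/
theorem mid_ne (hS : IsSTS S) {U : Finset α} {x y y' w : α} (hxy' : x ≠ y') (hyy' : y ≠ y')
    (mx : x ∉ U) (my' : y' ∉ U) (hw : w ∈ U) (h1 : ({x, y, w} : Finset α) ∈ S)
    (h2 : ({x, y', w} : Finset α) ∈ S) : False := by
  have hz : x ≠ w := fun e => mx (e ▸ hw)
  have := uniq hS hz h1 h2 (by simp) (by simp) (by simp) (by simp)
  have h : y' ∈ ({x, y, w} : Finset α) := by rw [this]; simp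
  simp only [Finset.mem_insert, Finset.mem_singleton] at h
  rcases h with h | h | h
  · exact hxy' h.symm
  · exact hyy' h.symm
  · exact my' (h ▸ hw)

/-- The types of four missed points of a maximal matching. -/
theorem four (hS : IsSTS S) (hM : IsMatching S M) (hmax : ∀ t ∈ S, ¬ Disjoint t (M.biUnion id))
    (hx : ({x0, x1, x2, x3} : Finset α).card = 4)
    (h01 : x0 ≠ x1) (h02 : x0 ≠ x2) (h03 : x0 ≠ x3) (h12 : x1 ≠ x2) (h13 : x1 ≠ x3) (h23 : x2 ≠ x3)
    (m0 : x0 ∉ M.biUnion id) (m1 : x1 ∉ M.biUnion id) (m2 : x2 ∉ M.biUnion id)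
    (m3 : x3 ∉ M.biUnion id) :
    (Sub S (M.biUnion id ∪ {x0, x1, x2, x3}) 10 mP ∨ Sub S (M.biUnion id ∪ {x0, x1, x2, x3}) 7 mQ) ∨
    (Sub S (M.biUnion id ∪ {x0, x1, x2, x3}) 7 mR ∧
      (Sub S (M.biUnion id ∪ {x0, x1, x2, x3}) 10 mRR ∨
        Sub S (M.biUnion id ∪ {x0, x1, x2, x3}) 7 mF)) := by
  have hX : Disjoint ({x0, x1, x2, x3} : Finset α) (M.biUnion id) := by
    rw [Finset.disjoint_left]
    intro w hw
    simp only [Finset.mem_insert, Finset.mem_singleton] at hw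
    rcases hw with rfl | rfl | rfl | rfl <;> assumption
  have mid : ∀ {x y z : α}, x ∉ M.biUnion id → y ∉ M.biUnion id →
      ({x, y, z} : Finset α) ∈ S → z ∈ M.biUnion id := by
    intro x y z hx hy hz
    by_contra hzU
    apply hmax _ hz
    rw [Finset.disjoint_left]
    intro w hw
    simp only [Finset.mem_insert, Finset.mem_singleton] at hw
    rcases hw with rfl | rfl | rfl <;> assumption
  obtain ⟨z01, -, -, k01⟩ := third hS h01
  obtain ⟨z23, -, -, k23⟩ := third hS h23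
  obtain ⟨z02, -, -, k02⟩ := third hS h02
  obtain ⟨z13, -, -, k13⟩ := third hS h13
  obtain ⟨z03, -, -, k03⟩ := third hS h03
  obtain ⟨z12, -, -, k12⟩ := third hS h12
  have u01 := mid m0 m1 k01
  have u23 := mid m2 m3 k23
  have u02 := mid m0 m2 k02
  have u13 := mid m1 m3 k13
  have u03 := mid m0 m3 k03
  have u12 := mid m1 m2 k12
  have pairing : ∀ {y0 y1 y2 y3 z z' : α},
      ({y0, y1, y2, y3} : Finset α) = {x0, x1, x2, x3} → ({y0, y1, z} : Finset α) ∈ S →
      ({y2, y3, z'} : Finset α) ∈ S → z ∈ M.biUnion id → z' ∈ M.biUnion id → z ≠ z' →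
      (Sub S (M.biUnion id ∪ {x0, x1, x2, x3}) 10 mP ∨
        Sub S (M.biUnion id ∪ {x0, x1, x2, x3}) 7 mQ) := by
    intro y0 y1 y2 y3 z z' e a1 a2 a3 a4 a5
    obtain ⟨b, hb, zb⟩ := Finset.mem_biUnion.mp a3
    obtain ⟨c, hc, zc⟩ := Finset.mem_biUnion.mp a4
    simp only [id] at zb zc
    rw [← e]
    by_cases hbc : b = c
    · subst hbc
      exact Or.inr (typeQ hS hM (by rw [e]; exact hx) (by rw [e]; exact hX) a1 a2 hb zb zc a5)
    · exact Or.inl (typeP hS hM (by rw [e]; exact hx) (by rw [e]; exact hX) a1 a2 hb hc zb zc hbc)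
  by_cases c1 : z01 = z23
  swap
  · exact Or.inl (pairing rfl k01 k23 u01 u23 c1)
  by_cases c2 : z02 = z13
  swap
  · exact Or.inl (pairing (y0 := x0) (y1 := x2) (y2 := x1) (y3 := x3) (by ext w; simp; tauto)
      k02 k13 u02 u13 c2)
  by_cases c3 : z03 = z12
  swap
  · exact Or.inl (pairing (y0 := x0) (y1 := x3) (y2 := x1) (y3 := x2) (by ext w; simp; tauto)
      k03 k12 u03 u12 c3)
  subst c1 c2 c3
  right
  obtain ⟨b, hb, zb⟩ := Finset.mem_biUnion.mp u01
  obtain ⟨c, hc, zc⟩ := Finset.mem_biUnion.mp u02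
  obtain ⟨d, hd, zd⟩ := Finset.mem_biUnion.mp u03
  simp only [id] at zb zc zd
  refine ⟨typeR hS hM hx hX k01 k23 hb zb, ?_⟩
  by_cases hbc : b = c
  · subst hbc
    by_cases hbd : b = d
    · subst hbd
      right
      refine typeF hS hM hx hX k01 k23 k02 k13 k03 k12 hb zb zc zd ?_ ?_ ?_
      · rintro rfl; exact mid_ne hS h02 h12 m0 m2 u01 k01 k02
      · rintro rfl; exact mid_ne hS h03 h13 m0 m3 u01 k01 k03
      · rintro rfl; exact mid_ne hS h03 h23 m0 m3 u02 k02 k03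
    · left
      have e : ({x0, x1, x3, x2} : Finset α) = {x0, x1, x2, x3} := by ext w; simp; tauto
      rw [← e]
      refine typeRR hS hM (by rw [e]; exact hx) (by rw [e]; exact hX) k01 ?_ k03 k12 hb hd zb zd
        hbd
      rw [Finset.insert_comm]; exact k23
  · left
    exact typeRR hS hM hx hX k01 k23 k02 k13 hb hc zb zc hbc

end Pool.Agent.H9.ST
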