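import Pool.Agent.H9.ST.Sts

set_option autoImplicit false

namespace Pool.Agent.H9.ST

variable {α β : Type*} [DecidableEq α] [DecidableEq β] [Fintype α] [Fintype β]

theorem glue_rows {S : Finset (Finset α)} {T : Finset (Finset β)} {A : Finset α} {Y : Finset β}
    (h1 : PM (prod S T) ((Finset.univ \ A) ×ˢ Finset.univ)) (h2 : PM (prod S T) (A ×ˢ Y)) :
    ∃ X, PM (prod S T) X ∧
      X.card + A.card * (Fintype.card β - Y.card) = Fintype.card α * Fintype.card β := by
  have hd : Disjoint ((Finset.univ \ A) ×ˢ (Finset.univ : Finset β)) (A ×ˢ Y) := by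
    rw [Finset.disjoint_product]; exact Or.inl Finset.sdiff_disjoint
  refine ⟨_, h1.union h2 hd, ?_⟩
  rw [Finset.card_union_of_disjoint hd, Finset.card_product, Finset.card_product,
    Finset.card_sdiff_of_subset (Finset.subset_univ A), Finset.card_univ, Finset.card_univ]
  have hA := Finset.card_le_univ A
  have hY := Finset.card_le_univ Y
  obtain ⟨r, hr⟩ := Nat.exists_eq_add_of_le hA
  obtain ⟨q, hq⟩ := Nat.exists_eq_add_of_le hY
  rw [hr, hq, Nat.add_sub_cancel_left, Nat.add_sub_cancel_left]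
  ring

theorem glue_cols {S : Finset (Finset α)} {T : Finset (Finset β)} {A : Finset α} {Y : Finset β}
    (h1 : PM (prod S T) (Finset.univ ×ˢ (Finset.univ \ Y))) (h2 : PM (prod S T) (A ×ˢ Y)) :
    ∃ X, PM (prod S T) X ∧
      X.card + (Fintype.card α - A.card) * Y.card = Fintype.card α * Fintype.card β := by
  have hd : Disjoint ((Finset.univ : Finset α) ×ˢ (Finset.univ \ Y)) (A ×ˢ Y) := by
    rw [Finset.disjoint_product]; exact Or.inr Finset.sdiff_disjoint
  refine ⟨_, h1.union h2 hd, ?_⟩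
  rw [Finset.card_union_of_disjoint hd, Finset.card_product, Finset.card_product,
    Finset.card_sdiff_of_subset (Finset.subset_univ Y), Finset.card_univ, Finset.card_univ]
  have hA := Finset.card_le_univ A
  have hY := Finset.card_le_univ Y
  obtain ⟨r, hr⟩ := Nat.exists_eq_add_of_le hA
  obtain ⟨q, hq⟩ := Nat.exists_eq_add_of_le hY
  rw [hr, hq, Nat.add_sub_cancel_left, Nat.add_sub_cancel_left]
  ring

theorem card_compl' (L : Finset α) : (Finset.univ \ L).card + L.card = Fintype.card α := by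
  rw [← Finset.card_univ]; exact Finset.card_sdiff_add_card_eq_card (Finset.subset_univ L)

theorem main_pm {S M : Finset (Finset α)} {T N : Finset (Finset β)} (hS : IsSTS S) (hT : IsSTS T)
    (hM : IsMatching S M) (hMc : Fintype.card α ≤ 3 * M.card + 4) (hN : IsMatching T N)
    (hNc : Fintype.card β ≤ 3 * N.card + 4) :
    ∃ X, PM (prod S T) X ∧ Fintype.card α * Fintype.card β ≤ X.card + 4 ∧
      (Fintype.card α % 3 = 0 → Fintype.card β % 3 = 0 →
        X.card = Fintype.card α * Fintype.card β) := by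
  have full : PM (prod S T) (Finset.univ ×ˢ Finset.univ) → ∃ X, PM (prod S T) X ∧
      Fintype.card α * Fintype.card β ≤ X.card + 4 ∧
      (Fintype.card α % 3 = 0 → Fintype.card β % 3 = 0 →
        X.card = Fintype.card α * Fintype.card β) := by
    intro h
    have e : ((Finset.univ : Finset α) ×ˢ (Finset.univ : Finset β)).card =
        Fintype.card α * Fintype.card β := by
      rw [Finset.card_product, Finset.card_univ, Finset.card_univ]
    exact ⟨_, h, by omega, fun _ _ => e⟩
  have part : ∀ k : ℕ, k ≤ 4 → (Fintype.card α % 3 = 1 ∨ Fintype.card β % 3 = 1) →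
      (∃ X, PM (prod S T) X ∧ X.card + k = Fintype.card α * Fintype.card β) →
      ∃ X, PM (prod S T) X ∧ Fintype.card α * Fintype.card β ≤ X.card + 4 ∧
      (Fintype.card α % 3 = 0 → Fintype.card β % 3 = 0 →
        X.card = Fintype.card α * Fintype.card β) := by
    rintro k hk hmod ⟨X, h1, h2⟩
    exact ⟨X, h1, by omega, fun h3 h4 => by omega⟩
  rcases cases hS hM hMc with a0 | ⟨am, x, ax⟩ | ⟨am, ⟨L, aL, aP⟩, a3⟩ | ⟨am, ⟨L, aL, aP⟩, ⟨x3, a3⟩, a4⟩
  · exact full (pm_left hS.1 a0 _)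
  · rcases cases hT hN hNc with b0 | ⟨bm, y, bx⟩ | ⟨bm, ⟨L', bL, bP⟩, b3⟩ |
      ⟨bm, ⟨L', bL, bP⟩, ⟨y3, b3⟩, b4⟩
    · exact full (pm_right hT.1 b0 _)
    · obtain ⟨X, h1, h2⟩ := glue_rows (pm_left hS.1 ax Finset.univ) (pm_right hT.1 bx {x})
      have := card_compl' ({y} : Finset β)
      rw [Finset.card_singleton] at this h2
      exact part 1 (by norm_num) (Or.inl am) ⟨X, h1, by
        rw [← h2]; congr 1; omega⟩
    · obtain ⟨X, h1, h2⟩ := glue_rows (pm_left hS.1 ax Finset.univ) (pm_right hT.1 bP {x})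
      have := card_compl' L'
      rw [Finset.card_singleton] at h2
      exact part 3 (by norm_num) (Or.inl am) ⟨X, h1, by
        rw [← h2]; congr 1; omega⟩
    · obtain ⟨X, h1, h2⟩ := glue_rows (pm_left hS.1 ax Finset.univ) (pm_right hT.1 bP {x})
      have := card_compl' L'
      rw [Finset.card_singleton] at h2
      exact part 4 (by norm_num) (Or.inl am) ⟨X, h1, by
        rw [← h2]; congr 1; omega⟩
  · rcases cases hT hN hNc with b0 | ⟨bm, y, bx⟩ | ⟨bm, ⟨L', bL, bP⟩, b3⟩ |
      ⟨bm, ⟨L', bL, bP⟩, ⟨y3, b3⟩, b4⟩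
    · exact full (pm_right hT.1 b0 _)
    · obtain ⟨X, h1, h2⟩ := glue_cols (pm_right hT.1 bx Finset.univ) (pm_left hS.1 aP {y})
      have := card_compl' L
      rw [Finset.card_singleton] at h2
      exact part 3 (by norm_num) (Or.inr bm) ⟨X, h1, by
        rw [← h2]; congr 1; omega⟩
    · exact full (three_three hS.1 hT.1 a3 b3)
    · obtain ⟨X, h1, h2⟩ := glue_cols (three_three hS.1 hT.1 a3 b3) (pm_left hS.1 aP {y3})
      have := card_compl' L
      rw [Finset.card_singleton] at h2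
      exact part 3 (by norm_num) (Or.inr bm) ⟨X, h1, by
        rw [← h2]; congr 1; omega⟩
  · rcases cases hT hN hNc with b0 | ⟨bm, y, bx⟩ | ⟨bm, ⟨L', bL, bP⟩, b3⟩ |
      ⟨bm, ⟨L', bL, bP⟩, ⟨y3, b3⟩, b4⟩
    · exact full (pm_right hT.1 b0 _)
    · obtain ⟨X, h1, h2⟩ := glue_cols (pm_right hT.1 bx Finset.univ) (pm_left hS.1 aP {y})
      have := card_compl' L
      rw [Finset.card_singleton] at h2
      exact part 4 (by norm_num) (Or.inr bm) ⟨X, h1, by
        rw [← h2]; congr 1; omega⟩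
    · obtain ⟨X, h1, h2⟩ := glue_rows (three_three hS.1 hT.1 a3 b3) (pm_right hT.1 bP {x3})
      have := card_compl' L'
      rw [Finset.card_singleton] at h2
      exact part 3 (by norm_num) (Or.inl am) ⟨X, h1, by
        rw [← h2]; congr 1; omega⟩
    · obtain ⟨X, -, h1, h2⟩ := four_four hS.1 hT.1 a4 b4
      rw [Finset.card_univ, Finset.card_univ] at h2
      exact part 4 le_rfl (Or.inl am) ⟨X, h1, h2⟩

theorem main {S : Finset (Finset α)} {T : Finset (Finset β)} (hS : IsSTS S) (hT : IsSTS T) :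
    IsSTS (prod S T) ∧ ∀ M N, IsMatching S M → Fintype.card α ≤ 3 * M.card + 4 →
      IsMatching T N → Fintype.card β ≤ 3 * N.card + 4 →
      ∃ K, IsMatching (prod S T) K ∧ Fintype.card (α × β) ≤ 3 * K.card + 4 ∧
        (3 ∣ Fintype.card α → 3 ∣ Fintype.card β → Fintype.card (α × β) = 3 * K.card) := by
  refine ⟨isSTS_prod hS hT, ?_⟩
  intro M N hM hMc hN hNc
  obtain ⟨X, h1, h2, h3⟩ := main_pm hS hT hM hMc hN hNc
  obtain ⟨K, k1, -, k2⟩ := PM.exists (isSTS_prod hS hT).1 h1
  rw [Fintype.card_prod]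
  refine ⟨K, k1, by omega, fun d1 d2 => ?_⟩
  rw [← h3 (by omega) (by omega), k2]

end Pool.Agent.H9.ST
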