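import Pool.Agent.H9.ST.Fin

set_option autoImplicit false

namespace Pool.Agent.H9.ST

variable {α β : Type*} [DecidableEq α] [DecidableEq β]

/-- `r` is the point which completes `x, y`. -/
def Co (S : Finset (Finset α)) (x y r : α) : Prop :=
  (x = y ∧ r = x) ∨ (x ≠ y ∧ r ≠ x ∧ r ≠ y ∧ ({x, y, r} : Finset α) ∈ S)

theorem co_exists {S : Finset (Finset α)} (hS : IsSTS S) (x y : α) : ∃ r, Co S x y r := by
  by_cases h : x = y
  · exact ⟨x, Or.inl ⟨h, rfl⟩⟩
  · obtain ⟨z, h1, h2, h3⟩ := third hS h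
    exact ⟨z, Or.inr ⟨h, h1, h2, h3⟩⟩

theorem co_unique {S : Finset (Finset α)} (hS : IsSTS S) {x y r r' : α} (h : Co S x y r)
    (h' : Co S x y r') : r = r' := by
  rcases h with ⟨e, h⟩ | ⟨n, h1, h2, h3⟩
  · rcases h' with ⟨_, h'⟩ | ⟨n', _⟩
    · rw [h, h']
    · exact absurd e n'
  · rcases h' with ⟨e', _⟩ | ⟨_, h1', h2', h3'⟩
    · exact absurd e' n
    · have := uniq hS n h3 h3' (by simp) (by simp) (by simp) (by simp)
      have hr : r ∈ ({x, y, r'} : Finset α) := by rw [← this]; simp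
      simp only [Finset.mem_insert, Finset.mem_singleton] at hr
      rcases hr with hr | hr | hr
      · exact absurd hr h1
      · exact absurd hr h2
      · exact hr

/-- the projection of a block -/
theorem co_of_image {S : Finset (Finset α)} (hS : IsSTS S) {x y r : α}
    (h : ({x, y, r} : Finset α) ∈ S ∨ ({x, y, r} : Finset α).card = 1) : Co S x y r := by
  rcases h with h | h
  · have hc := hS.1 _ h
    obtain ⟨h1, h2, h3⟩ : x ≠ y ∧ r ≠ x ∧ r ≠ y := by
      refine ⟨?_, ?_, ?_⟩ <;> rintro rfl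
      · have := Finset.card_le_two (a := x) (b := r)
        rw [Finset.insert_idem] at hc; omega
      · have := Finset.card_le_two (a := r) (b := y)
        have e : ({r, y, r} : Finset α) = {r, y} := by ext w; simp; tauto
        rw [e] at hc; omega
      · have := Finset.card_le_two (a := x) (b := r)
        have e : ({x, r, r} : Finset α) = {x, r} := by ext w; simp
        rw [e] at hc; omega
    exact Or.inr ⟨h1, h2, h3, h⟩
  · obtain ⟨w, hw⟩ := Finset.card_eq_one.mp h
    have hx : x ∈ ({w} : Finset α) := by rw [← hw]; simp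
    have hy : y ∈ ({w} : Finset α) := by rw [← hw]; simp
    have hr : r ∈ ({w} : Finset α) := by rw [← hw]; simp
    rw [Finset.mem_singleton] at hx hy hr
    exact Or.inl ⟨by rw [hx, hy], by rw [hr, hx]⟩

theorem image_of_co {S : Finset (Finset α)} {x y r : α} (h : Co S x y r) :
    ({x, y, r} : Finset α) ∈ S ∨ ({x, y, r} : Finset α).card = 1 := by
  rcases h with ⟨h1, h2⟩ | ⟨_, _, _, h⟩
  · right; rw [h2, ← h1]; simp
  · exact Or.inl h

variable [Fintype α] [Fintype β]

theorem mem_prod_iff {S : Finset (Finset α)} {T : Finset (Finset β)} (hS : IsSTS S)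
    (hT : IsSTS T) {p q r : α × β} (hpq : p ≠ q) (hr : r ≠ p) (hr' : r ≠ q) :
    ({p, q, r} : Finset (α × β)) ∈ prod S T ↔ Co S p.1 q.1 r.1 ∧ Co T p.2 q.2 r.2 := by
  have hc : ({p, q, r} : Finset (α × β)).card = 3 :=
    Finset.card_eq_three.mpr ⟨p, q, r, hpq, hr.symm, hr'.symm, rfl⟩
  have e1 : ({p, q, r} : Finset (α × β)).image Prod.fst = {p.1, q.1, r.1} := by
    simp [Finset.image_insert]
  have e2 : ({p, q, r} : Finset (α × β)).image Prod.snd = {p.2, q.2, r.2} := by
    simp [Finset.image_insert]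
  simp only [prod, Finset.mem_filter, Finset.mem_univ, true_and, e1, e2]
  constructor
  · rintro ⟨-, h1, h2⟩
    exact ⟨co_of_image hS h1, co_of_image hT h2⟩
  · rintro ⟨h1, h2⟩
    exact ⟨hc, image_of_co h1, image_of_co h2⟩

theorem isSTS_prod {S : Finset (Finset α)} {T : Finset (Finset β)} (hS : IsSTS S)
    (hT : IsSTS T) : IsSTS (prod S T) := by
  constructor
  · intro t ht
    simp only [prod, Finset.mem_filter] at ht
    exact ht.2.1
  · intro p q hpq
    obtain ⟨r1, h1⟩ := co_exists hS p.1 q.1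
    obtain ⟨r2, h2⟩ := co_exists hT p.2 q.2
    have n1 : (r1, r2) ≠ p := by
      rintro rfl
      rcases h1 with ⟨e1, -⟩ | ⟨-, h, -⟩
      · rcases h2 with ⟨e2, -⟩ | ⟨-, h, -⟩
        · exact hpq (Prod.ext e1 e2)
        · exact h rfl
      · exact h rfl
    have n2 : (r1, r2) ≠ q := by
      rintro rfl
      rcases h1 with ⟨e1, -⟩ | ⟨-, -, h, -⟩
      · rcases h2 with ⟨e2, -⟩ | ⟨-, -, h, -⟩
        · exact hpq (Prod.ext e1 e2)
        · exact h rfl
      · exact h rfl
    refine ⟨{p, q, (r1, r2)}, ⟨(mem_prod_iff hS hT hpq n1 n2).mpr ⟨h1, h2⟩, by simp, by simp⟩, ?_⟩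
    rintro t ⟨ht, hp, hq⟩
    have hc : t.card = 3 := by
      simp only [prod, Finset.mem_filter] at ht
      exact ht.2.1
    obtain ⟨r, e⟩ := block_of_mem2 hc hp hq hpq
    subst e
    have m1 : r ≠ p := by
      rintro rfl
      have := Finset.card_le_two (a := r) (b := q)
      have e : ({r, q, r} : Finset (α × β)) = {r, q} := by ext w; simp; tauto
      rw [e] at hc; omega
    have m2 : r ≠ q := by
      rintro rfl
      have := Finset.card_le_two (a := p) (b := r)
      have e : ({p, r, r} : Finset (α × β)) = {p, r} := by ext w; simp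
      rw [e] at hc; omega
    obtain ⟨k1, k2⟩ := (mem_prod_iff hS hT hpq m1 m2).mp ht
    have : r = (r1, r2) := Prod.ext (co_unique hS k1 h1) (co_unique hT k2 h2)
    rw [this]

end Pool.Agent.H9.ST
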