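import Pool.Agent.H9.ST.Cert

set_option autoImplicit false

namespace Pool.Agent.H9.ST

variable {α β : Type*} [DecidableEq α] [DecidableEq β]

/-- `R` contains a copy of the model `bs`, and the rest of `R` is matched. -/
def Sub (S : Finset (Finset α)) (R : Finset α) (a : ℕ) (bs : List (ℕ × ℕ × ℕ)) : Prop :=
  ∃ (l : List α) (d : α), l.Nodup ∧ l.length = a ∧
    (∀ t ∈ bs, ({l.getD t.1 d, l.getD t.2.1 d, l.getD t.2.2 d} : Finset α) ∈ S) ∧
    l.toFinset ⊆ R ∧ PM S (R \ l.toFinset)

theorem getD_inj {l : List α} (h : l.Nodup) (d : α) :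
    ∀ i < l.length, ∀ j < l.length, l.getD i d = l.getD j d → i = j := by
  intro i hi j hj e
  rw [List.getD_eq_getElem _ _ hi, List.getD_eq_getElem _ _ hj] at e
  exact (List.Nodup.getElem_inj_iff h).1 e

theorem image_getD (l : List α) (d : α) :
    (Finset.range l.length).image (fun i => l.getD i d) = l.toFinset := by
  ext x
  simp only [Finset.mem_image, Finset.mem_range, List.mem_toFinset, List.mem_iff_getElem]
  constructor
  · rintro ⟨i, hi, rfl⟩
    exact ⟨i, hi, (List.getD_eq_getElem _ _ hi).symm⟩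
  · rintro ⟨i, hi, rfl⟩
    exact ⟨i, hi, List.getD_eq_getElem _ _ hi⟩

theorem sub_prod [Fintype α] [Fintype β] {S : Finset (Finset α)} {T : Finset (Finset β)}
    (hS : ∀ t ∈ S, t.card = 3) (hT : ∀ t ∈ T, t.card = 3) {R : Finset α} {Q : Finset β}
    {a c k : ℕ} {bs cs : List (ℕ × ℕ × ℕ)} (h1 : Sub S R a bs) (h2 : Sub T Q c cs)
    (l : List (ℕ × ℕ × ℕ)) (h : ok bs cs a c k l = true) :
    ∃ X, X ⊆ R ×ˢ Q ∧ PM (prod S T) X ∧ X.card + k = R.card * Q.card := by
  obtain ⟨l1, d1, n1, len1, b1, s1, p1⟩ := h1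
  obtain ⟨l2, d2, n2, len2, b2, s2, p2⟩ := h2
  obtain ⟨W, hW, hWs, hWc⟩ := cert_pm (S := S) (T := T) (f := fun i => l1.getD i d1)
    (g := fun i => l2.getD i d2) b1 b2 (by rw [← len1]; exact getD_inj n1 d1)
    (by rw [← len2]; exact getD_inj n2 d2) l h
  rw [← len1, ← len2, image_getD, image_getD] at hWs
  set A := l1.toFinset with hA
  set C := l2.toFinset with hC
  have cA : A.card = a := by rw [hA, List.toFinset_card_of_nodup n1, len1]
  have cC : C.card = c := by rw [hC, List.toFinset_card_of_nodup n2, len2]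
  have q1 : PM (prod S T) ((R \ A) ×ˢ Q) := pm_left hS p1 Q
  have q2 : PM (prod S T) (A ×ˢ (Q \ C)) := pm_right hT p2 A
  have d12 : Disjoint ((R \ A) ×ˢ Q) (A ×ˢ (Q \ C)) := by
    rw [Finset.disjoint_product]; exact Or.inl Finset.sdiff_disjoint
  have d3 : Disjoint ((R \ A) ×ˢ Q ∪ A ×ˢ (Q \ C)) W := by
    rw [Finset.disjoint_union_left]
    constructor
    · refine Disjoint.mono_right hWs ?_
      rw [Finset.disjoint_product]; exact Or.inl Finset.sdiff_disjoint
    · refine Disjoint.mono_right hWs ?_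
      rw [Finset.disjoint_product]; exact Or.inr Finset.sdiff_disjoint
  refine ⟨((R \ A) ×ˢ Q ∪ A ×ˢ (Q \ C)) ∪ W, ?_, (q1.union q2 d12).union hW d3, ?_⟩
  · refine Finset.union_subset (Finset.union_subset ?_ ?_) (hWs.trans ?_)
    · exact Finset.product_subset_product Finset.sdiff_subset (Finset.Subset.refl _)
    · exact Finset.product_subset_product s1 Finset.sdiff_subset
    · exact Finset.product_subset_product s1 s2
  · rw [Finset.card_union_of_disjoint d3, Finset.card_union_of_disjoint d12,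
      Finset.card_product, Finset.card_product, Finset.card_sdiff_of_subset s1,
      Finset.card_sdiff_of_subset s2, cA, cC]
    have hAR := Finset.card_le_card s1
    have hCQ := Finset.card_le_card s2
    rw [cA] at hAR
    rw [cC] at hCQ
    obtain ⟨r, hr⟩ := Nat.exists_eq_add_of_le hAR
    obtain ⟨q, hq⟩ := Nat.exists_eq_add_of_le hCQ
    rw [hr, hq, Nat.add_sub_cancel_left, Nat.add_sub_cancel_left]
    nlinarith

theorem third {S : Finset (Finset α)} (hS : IsSTS S) {x y : α} (h : x ≠ y) :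
    ∃ z, z ≠ x ∧ z ≠ y ∧ ({x, y, z} : Finset α) ∈ S := by
  obtain ⟨t, ⟨ht, hx, hy⟩, -⟩ := hS.2 x y h
  have hc := hS.1 t ht
  have h1 : ((t.erase x).erase y).card = 1 := by
    rw [Finset.card_erase_of_mem (Finset.mem_erase.mpr ⟨h.symm, hy⟩), Finset.card_erase_of_mem hx,
      hc]
  obtain ⟨z, hz⟩ := Finset.card_eq_one.mp h1
  have hz' : z ∈ (t.erase x).erase y := by rw [hz]; simp
  simp only [Finset.mem_erase] at hz'
  refine ⟨z, hz'.2.1, hz'.1, ?_⟩
  have : ({x, y, z} : Finset α) = t := by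
    apply Finset.eq_of_subset_of_card_le
    · intro w hw
      simp only [Finset.mem_insert, Finset.mem_singleton] at hw
      rcases hw with rfl | rfl | rfl
      · exact hx
      · exact hy
      · exact hz'.2.2
    · rw [hc, Finset.card_eq_three.mpr ⟨x, y, z, h, hz'.2.1.symm, hz'.1.symm, rfl⟩]
  rw [this]; exact ht

theorem uniq {S : Finset (Finset α)} (hS : IsSTS S) {x y : α} (h : x ≠ y) {t t' : Finset α}
    (ht : t ∈ S) (ht' : t' ∈ S) (hx : x ∈ t) (hy : y ∈ t) (hx' : x ∈ t') (hy' : y ∈ t') :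
    t = t' :=
  (hS.2 x y h).unique ⟨ht, hx, hy⟩ ⟨ht', hx', hy'⟩

/-- the rest of a matching -/
theorem pm_rest {S M M' : Finset (Finset α)} (h : IsMatching S M) (hM : M' ⊆ M) {X : Finset α}
    (hX : Disjoint X (M.biUnion id)) :
    PM S ((M.biUnion id ∪ X) \ (X ∪ M'.biUnion id)) := by
  have e : (M.biUnion id ∪ X) \ (X ∪ M'.biUnion id) = (M \ M').biUnion id := by
    ext w
    simp only [Finset.mem_sdiff, Finset.mem_union, Finset.mem_biUnion, id]
    constructor
    · rintro ⟨⟨t, ht, hw⟩ | hw, h2⟩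
      · exact ⟨t, ⟨ht, fun ht' => h2 (Or.inr ⟨t, ht', hw⟩)⟩, hw⟩
      · exact absurd (Or.inl hw) h2
    · rintro ⟨t, ⟨ht, ht'⟩, hw⟩
      refine ⟨Or.inl ⟨t, ht, hw⟩, ?_⟩
      rintro (hw2 | ⟨s, hs, hw2⟩)
      · exact Finset.disjoint_left.mp hX hw2 (Finset.mem_biUnion.mpr ⟨t, ht, hw⟩)
      · have hst : s ≠ t := fun e => ht' (e ▸ hs)
        exact Finset.disjoint_left.mp (h.2 s (hM hs) t ht hst) hw2 hw
  rw [e]
  exact pm_of_matching ⟨fun t ht => h.1 (Finset.sdiff_subset ht),
    fun s hs t ht => h.2 s (Finset.sdiff_subset hs) t (Finset.sdiff_subset ht)⟩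

theorem nodup_of_card {l : List α} (h : l.toFinset.card = l.length) : l.Nodup := by
  rw [← Multiset.coe_nodup, ← Multiset.toFinset_card_eq_card_iff_nodup]
  simpa using h

theorem block_of_mem {t : Finset α} (ht : t.card = 3) {z : α} (hz : z ∈ t) :
    ∃ u v, t = {z, u, v} := by
  have h1 : (t.erase z).card = 2 := by rw [Finset.card_erase_of_mem hz, ht]
  obtain ⟨u, v, -, huv⟩ := Finset.card_eq_two.mp h1
  exact ⟨u, v, by rw [← huv, Finset.insert_erase hz]⟩

theorem block_of_mem2 {t : Finset α} (ht : t.card = 3) {z w : α} (hz : z ∈ t) (hw : w ∈ t)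
    (h : z ≠ w) : ∃ v, t = {z, w, v} := by
  have h1 : ((t.erase z).erase w).card = 1 := by
    rw [Finset.card_erase_of_mem (Finset.mem_erase.mpr ⟨h.symm, hw⟩), Finset.card_erase_of_mem hz,
      ht]
  obtain ⟨v, hv⟩ := Finset.card_eq_one.mp h1
  refine ⟨v, ?_⟩
  rw [← hv, Finset.insert_erase (Finset.mem_erase.mpr ⟨h.symm, hw⟩), Finset.insert_erase hz]

variable {S M : Finset (Finset α)} {x0 x1 x2 z01 z02 z12 : α}

theorem typeA (hS : IsSTS S) (hM : IsMatching S M) (hx : ({x0, x1, x2} : Finset α).card = 3)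
    (hX : Disjoint ({x0, x1, x2} : Finset α) (M.biUnion id))
    (h01 : ({x0, x1, z01} : Finset α) ∈ S) (h02 : ({x0, x2, z02} : Finset α) ∈ S)
    (h12 : ({x1, x2, z12} : Finset α) ∈ S) {b c d : Finset α} (hb : b ∈ M) (hc : c ∈ M)
    (hd : d ∈ M) (zb : z01 ∈ b) (zc : z02 ∈ c) (zd : z12 ∈ d) (hbc : b ≠ c) (hbd : b ≠ d)
    (hcd : c ≠ d) : Sub S (M.biUnion id ∪ {x0, x1, x2}) 12 mA := by
  obtain ⟨u, v, eb⟩ := block_of_mem (hS.1 b (hM.1 hb)) zb
  obtain ⟨u', v', ec⟩ := block_of_mem (hS.1 c (hM.1 hc)) zc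
  obtain ⟨u'', v'', ed⟩ := block_of_mem (hS.1 d (hM.1 hd)) zd
  have hM' : ({b, c, d} : Finset (Finset α)) ⊆ M := by
    intro t ht
    simp only [Finset.mem_insert, Finset.mem_singleton] at ht
    rcases ht with rfl | rfl | rfl <;> assumption
  have key : ([x0, x1, x2, z01, u, v, z02, u', v', z12, u'', v''] : List α).toFinset =
      {x0, x1, x2} ∪ ({b, c, d} : Finset (Finset α)).biUnion id := by
    rw [eb, ec, ed]; ext w; simp; tauto
  have hsub : ({b, c, d} : Finset (Finset α)).biUnion id ⊆ M.biUnion id :=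
    Finset.biUnion_subset_biUnion_of_subset_left _ hM'
  have hcard : (({b, c, d} : Finset (Finset α)).biUnion id).card = 9 := by
    have e : ({b, c, d} : Finset (Finset α)).biUnion id = b ∪ (c ∪ d) := by ext w; simp
    have d1 : Disjoint c d := hM.2 _ hc _ hd hcd
    have d2 : Disjoint b (c ∪ d) := by
      rw [Finset.disjoint_union_right]; exact ⟨hM.2 _ hb _ hc hbc, hM.2 _ hb _ hd hbd⟩
    rw [e, Finset.card_union_of_disjoint d2, Finset.card_union_of_disjoint d1,
      hS.1 b (hM.1 hb), hS.1 c (hM.1 hc), hS.1 d (hM.1 hd)]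
  refine ⟨[x0, x1, x2, z01, u, v, z02, u', v', z12, u'', v''], x0, nodup_of_card ?_, rfl, ?_,
    ?_, ?_⟩
  · rw [key, Finset.card_union_of_disjoint (hX.mono_right hsub), hx, hcard]; rfl
  · have hb' := hM.1 hb
    have hc' := hM.1 hc
    have hd' := hM.1 hd
    rw [eb] at hb'; rw [ec] at hc'; rw [ed] at hd'
    intro t ht
    simp only [mA, List.mem_cons, List.not_mem_nil, or_false] at ht
    rcases ht with rfl | rfl | rfl | rfl | rfl | rfl <;> assumption
  · rw [key]
    exact Finset.union_subset Finset.subset_union_right (hsub.trans Finset.subset_union_left)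
  · rw [key]; exact pm_rest hM hM' hX

theorem typeB (hS : IsSTS S) (hM : IsMatching S M) (hx : ({x0, x1, x2} : Finset α).card = 3)
    (hX : Disjoint ({x0, x1, x2} : Finset α) (M.biUnion id))
    (h01 : ({x0, x1, z01} : Finset α) ∈ S) (h02 : ({x0, x2, z02} : Finset α) ∈ S)
    (h12 : ({x1, x2, z12} : Finset α) ∈ S) {b d : Finset α} (hb : b ∈ M)
    (hd : d ∈ M) (zb : z01 ∈ b) (zc : z02 ∈ b) (zd : z12 ∈ d) (hz : z01 ≠ z02) (hbd : b ≠ d) :
    Sub S (M.biUnion id ∪ {x0, x1, x2}) 9 mB := by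
  obtain ⟨v, eb⟩ := block_of_mem2 (hS.1 b (hM.1 hb)) zb zc hz
  obtain ⟨u'', v'', ed⟩ := block_of_mem (hS.1 d (hM.1 hd)) zd
  have hM' : ({b, d} : Finset (Finset α)) ⊆ M := by
    intro t ht
    simp only [Finset.mem_insert, Finset.mem_singleton] at ht
    rcases ht with rfl | rfl <;> assumption
  have key : ([x0, x1, x2, z01, z02, v, z12, u'', v''] : List α).toFinset =
      {x0, x1, x2} ∪ ({b, d} : Finset (Finset α)).biUnion id := by
    rw [eb, ed]; ext w; simp; tauto
  have hsub : ({b, d} : Finset (Finset α)).biUnion id ⊆ M.biUnion id :=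
    Finset.biUnion_subset_biUnion_of_subset_left _ hM'
  have hcard : (({b, d} : Finset (Finset α)).biUnion id).card = 6 := by
    have e : ({b, d} : Finset (Finset α)).biUnion id = b ∪ d := by ext w; simp
    rw [e, Finset.card_union_of_disjoint (hM.2 _ hb _ hd hbd),
      hS.1 b (hM.1 hb), hS.1 d (hM.1 hd)]
  refine ⟨[x0, x1, x2, z01, z02, v, z12, u'', v''], x0, nodup_of_card ?_, rfl, ?_, ?_, ?_⟩
  · rw [key, Finset.card_union_of_disjoint (hX.mono_right hsub), hx, hcard]; rfl
  · have hb' := hM.1 hb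
    have hd' := hM.1 hd
    rw [eb] at hb'; rw [ed] at hd'
    intro t ht
    simp only [mB, List.mem_cons, List.not_mem_nil, or_false] at ht
    rcases ht with rfl | rfl | rfl | rfl | rfl <;> assumption
  · rw [key]
    exact Finset.union_subset Finset.subset_union_right (hsub.trans Finset.subset_union_left)
  · rw [key]; exact pm_rest hM hM' hX

theorem typeC (hS : IsSTS S) (hM : IsMatching S M) (hx : ({x0, x1, x2} : Finset α).card = 3)
    (hX : Disjoint ({x0, x1, x2} : Finset α) (M.biUnion id))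
    (h01 : ({x0, x1, z01} : Finset α) ∈ S) (h02 : ({x0, x2, z02} : Finset α) ∈ S)
    (h12 : ({x1, x2, z12} : Finset α) ∈ S) {b : Finset α} (hb : b ∈ M)
    (zb : z01 ∈ b) (zc : z02 ∈ b) (zd : z12 ∈ b) (hz : z01 ≠ z02) (hz' : z01 ≠ z12)
    (hz'' : z02 ≠ z12) : Sub S (M.biUnion id ∪ {x0, x1, x2}) 6 mC := by
  have eb : b = {z01, z02, z12} := by
    symm
    apply Finset.eq_of_subset_of_card_le
    · intro w hw
      simp only [Finset.mem_insert, Finset.mem_singleton] at hw
      rcases hw with rfl | rfl | rfl <;> assumption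
    · rw [hS.1 b (hM.1 hb), Finset.card_eq_three.mpr ⟨_, _, _, hz, hz', hz'', rfl⟩]
  have hM' : ({b} : Finset (Finset α)) ⊆ M := by
    intro t ht
    simp only [Finset.mem_singleton] at ht
    rw [ht]; exact hb
  have key : ([x0, x1, x2, z01, z02, z12] : List α).toFinset =
      {x0, x1, x2} ∪ ({b} : Finset (Finset α)).biUnion id := by
    rw [eb]; ext w; simp; tauto
  have hsub : ({b} : Finset (Finset α)).biUnion id ⊆ M.biUnion id :=
    Finset.biUnion_subset_biUnion_of_subset_left _ hM'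
  have hcard : (({b} : Finset (Finset α)).biUnion id).card = 3 := by
    simp [hS.1 b (hM.1 hb)]
  refine ⟨[x0, x1, x2, z01, z02, z12], x0, nodup_of_card ?_, rfl, ?_, ?_, ?_⟩
  · rw [key, Finset.card_union_of_disjoint (hX.mono_right hsub), hx, hcard]; rfl
  · have hb' := hM.1 hb
    rw [eb] at hb'
    intro t ht
    simp only [mC, List.mem_cons, List.not_mem_nil, or_false] at ht
    rcases ht with rfl | rfl | rfl | rfl <;> assumption
  · rw [key]
    exact Finset.union_subset Finset.subset_union_right (hsub.trans Finset.subset_union_left)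
  · rw [key]; exact pm_rest hM hM' hX

/-- The types of three missed points of a maximal matching. -/
theorem three (hS : IsSTS S) (hM : IsMatching S M) (hmax : ∀ t ∈ S, ¬ Disjoint t (M.biUnion id))
    (h1 : x0 ≠ x1) (h2 : x0 ≠ x2) (h3 : x1 ≠ x2) (m0 : x0 ∉ M.biUnion id)
    (m1 : x1 ∉ M.biUnion id) (m2 : x2 ∉ M.biUnion id) :
    Sub S (M.biUnion id ∪ {x0, x1, x2}) 12 mA ∨ Sub S (M.biUnion id ∪ {x0, x1, x2}) 9 mB ∨
      Sub S (M.biUnion id ∪ {x0, x1, x2}) 6 mC := by
  have hx : ({x0, x1, x2} : Finset α).card = 3 :=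
    Finset.card_eq_three.mpr ⟨_, _, _, h1, h2, h3, rfl⟩
  have hX : Disjoint ({x0, x1, x2} : Finset α) (M.biUnion id) := by
    rw [Finset.disjoint_left]
    intro w hw
    simp only [Finset.mem_insert, Finset.mem_singleton] at hw
    rcases hw with rfl | rfl | rfl <;> assumption
  have mid : ∀ {x y z : α}, x ∉ M.biUnion id → y ∉ M.biUnion id →
      ({x, y, z} : Finset α) ∈ S → z ∈ M.biUnion id := by
    intro x y z hx hy hz
    by_contra hzU
    apply hmax _ hz
    rw [Finset.disjoint_left]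
    intro w hw
    simp only [Finset.mem_insert, Finset.mem_singleton] at hw
    rcases hw with rfl | rfl | rfl <;> assumption
  obtain ⟨z01, -, -, h01⟩ := third hS h1
  obtain ⟨z02, -, -, h02⟩ := third hS h2
  obtain ⟨z12, -, -, h12⟩ := third hS h3
  have u01 := mid m0 m1 h01
  have u02 := mid m0 m2 h02
  have u12 := mid m1 m2 h12
  have n1 : z01 ≠ z02 := by
    rintro rfl
    have hz : x0 ≠ z01 := fun e => m0 (e ▸ u01)
    have := uniq hS hz h01 h02 (by simp) (by simp) (by simp) (by simp)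
    have h : x1 ∈ ({x0, x2, z01} : Finset α) := by rw [← this]; simp
    simp only [Finset.mem_insert, Finset.mem_singleton] at h
    rcases h with h | h | h
    · exact h1 h.symm
    · exact h3 h
    · exact m1 (h ▸ u01)
  have n2 : z01 ≠ z12 := by
    rintro rfl
    have hz : x1 ≠ z01 := fun e => m1 (e ▸ u01)
    have := uniq hS hz h01 h12 (by simp) (by simp) (by simp) (by simp)
    have h : x0 ∈ ({x1, x2, z01} : Finset α) := by rw [← this]; simp
    simp only [Finset.mem_insert, Finset.mem_singleton] at h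
    rcases h with h | h | h
    · exact h1 h
    · exact h2 h
    · exact m0 (h ▸ u01)
  have n3 : z02 ≠ z12 := by
    rintro rfl
    have hz : x2 ≠ z02 := fun e => m2 (e ▸ u02)
    have := uniq hS hz h02 h12 (by simp) (by simp) (by simp) (by simp)
    have h : x0 ∈ ({x1, x2, z02} : Finset α) := by rw [← this]; simp
    simp only [Finset.mem_insert, Finset.mem_singleton] at h
    rcases h with h | h | h
    · exact h1 h
    · exact h2 h
    · exact m0 (h ▸ u02)
  obtain ⟨b, hb, zb⟩ := Finset.mem_biUnion.mp u01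
  obtain ⟨c, hc, zc⟩ := Finset.mem_biUnion.mp u02
  obtain ⟨d, hd, zd⟩ := Finset.mem_biUnion.mp u12
  simp only [id] at zb zc zd
  by_cases hbc : b = c
  · subst hbc
    by_cases hbd : b = d
    · subst hbd
      exact Or.inr (Or.inr (typeC hS hM hx hX h01 h02 h12 hb zb zc zd n1 n2 n3))
    · exact Or.inr (Or.inl (typeB hS hM hx hX h01 h02 h12 hb hd zb zc zd n1 hbd))
  · by_cases hbd : b = d
    · subst hbd
      -- centre x1
      have e : ({x1, x0, x2} : Finset α) = {x0, x1, x2} := Finset.insert_comm _ _ _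
      have h01' : ({x1, x0, z01} : Finset α) ∈ S := by rw [Finset.insert_comm]; exact h01
      have := typeB (x0 := x1) (x1 := x0) (x2 := x2) hS hM (by rw [e]; exact hx)
        (by rw [e]; exact hX) h01' h12 h02 hb hc zb zd zc n2 hbc
      rw [e] at this
      exact Or.inr (Or.inl this)
    · by_cases hcd : c = d
      · subst hcd
        -- centre x2
        have e : ({x2, x0, x1} : Finset α) = {x0, x1, x2} := by ext w; simp; tauto
        have h02' : ({x2, x0, z02} : Finset α) ∈ S := by rw [Finset.insert_comm]; exact h02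
        have h12' : ({x2, x1, z12} : Finset α) ∈ S := by rw [Finset.insert_comm]; exact h12
        have := typeB (x0 := x2) (x1 := x0) (x2 := x1) hS hM (by rw [e]; exact hx)
          (by rw [e]; exact hX) h02' h12' h01 hc hb zc zd zb n3 (fun h => hbc h.symm)
        rw [e] at this
        exact Or.inr (Or.inl this)
      · exact Or.inl (typeA hS hM hx hX h01 h02 h12 hb hc hd zb zc zd hbc hbd hcd)

end Pool.Agent.H9.ST
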